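import Pool.Agent.Helper91.HM.Kempf

/-!
The weights of optimal destabilising flags: the perturbation inequality and the rationality.
-/

set_option autoImplicit false
set_option linter.unusedSectionVars false

namespace Pool.Agent.Helper91.HM

open Module Topology Filter

section

variable {M V : Type} [Field M] [AddCommGroup V] [Module M V] {n : ℕ}

/-- the perturbation inequality -/
theorem pert {𝒮 : ∀ d : ℕ, Set (MultilinearMap M (fun _ : Fin d => V) M)} {D : ℕ}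
    (hD : ∀ d, ∀ s ∈ 𝒮 d, d ≤ D) {g : Fin n → V} {a : Fin n → ℝ} (h : Dest 𝒮 g a)
    (hmin : ∀ (e : Fin n → V) (b : Fin n → ℝ), Dest 𝒮 e b → ∑ j, a j ^ 2 ≤ ∑ j, b j ^ 2)
    (v : Fin n → ℝ) (hv : ∑ j, v j = 0) (M' : ℝ)
    (hM : ∀ d, ∀ s ∈ 𝒮 d, ∀ J : Fin d → Fin n, s (fun k => g (J k)) ≠ 0 → ∑ k, a (J k) = -1 →
      ∑ k, v (J k) ≤ M') : 0 ≤ ∑ j, a j * v j + M' * ∑ j, a j ^ 2 := by
  classical
  by_contra hneg
  push Not at hneg
  have h1 : ∀ᶠ ε : ℝ in 𝓝[>] 0, 0 < 1 - ε * M' := by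
    refine Filter.Eventually.filter_mono nhdsWithin_le_nhds ?_
    have hc : Tendsto (fun ε : ℝ => 1 - ε * M') (𝓝 0) (𝓝 (1 - 0 * M')) := by
      apply Continuous.tendsto
      fun_prop
    refine hc.eventually (lt_mem_nhds ?_)
    norm_num
  have h2 : ∀ᶠ ε : ℝ in 𝓝[>] 0, ∀ x : (Σ d : Fin (D + 1), (Fin (d : ℕ) → Fin n)),
      ∑ k, a (x.2 k) < -1 → ∑ k, a (x.2 k) + ε * ∑ k, v (x.2 k) < -(1 - ε * M') := by
    rw [Filter.eventually_all]
    intro x
    by_cases hx : ∑ k, a (x.2 k) < -1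
    · refine Filter.Eventually.filter_mono nhdsWithin_le_nhds ?_
      have hc : Tendsto (fun ε : ℝ => ∑ k, a (x.2 k) + ε * ∑ k, v (x.2 k) + (1 - ε * M')) (𝓝 0)
          (𝓝 (∑ k, a (x.2 k) + 0 * ∑ k, v (x.2 k) + (1 - 0 * M'))) := by
        apply Continuous.tendsto
        fun_prop
      have h3' : ∑ k, a (x.2 k) + 0 * ∑ k, v (x.2 k) + (1 - 0 * M') < 0 := by linarith
      have h3 := hc.eventually (gt_mem_nhds h3')
      filter_upwards [h3] with ε hε _
      linarith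
    · exact Filter.Eventually.of_forall fun ε h => absurd h hx
  have h3 : ∀ᶠ ε : ℝ in 𝓝[>] 0, 2 * (∑ j, a j * v j + M' * ∑ j, a j ^ 2) +
      ε * (∑ j, v j ^ 2 - M' ^ 2 * ∑ j, a j ^ 2) < 0 := by
    refine Filter.Eventually.filter_mono nhdsWithin_le_nhds ?_
    have hc : Tendsto (fun ε : ℝ => 2 * (∑ j, a j * v j + M' * ∑ j, a j ^ 2) +
      ε * (∑ j, v j ^ 2 - M' ^ 2 * ∑ j, a j ^ 2)) (𝓝 0) (𝓝 (2 * (∑ j, a j * v j + M' * ∑ j, a j ^ 2) +
      0 * (∑ j, v j ^ 2 - M' ^ 2 * ∑ j, a j ^ 2))) := by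
      apply Continuous.tendsto
      fun_prop
    exact hc.eventually (gt_mem_nhds (by linarith))
  obtain ⟨ε, ⟨⟨h1, h2⟩, h3⟩, hε⟩ := (((h1.and h2).and h3).and self_mem_nhdsWithin).exists
  have hε0 : 0 < ε := hε
  have hdest : Dest 𝒮 g (fun j => (a j + ε * v j) / (1 - ε * M')) := by
    refine ⟨h.1, h.2.1, ?_, fun d s hs J hne => ?_⟩
    · rw [← Finset.sum_div, Finset.sum_add_distrib, ← Finset.mul_sum, h.2.2.1, hv]
      simp
    · rw [← Finset.sum_div, Finset.sum_add_distrib, ← Finset.mul_sum, div_le_iff₀ h1]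
      have h4 := h.2.2.2 d s hs J hne
      rcases h4.lt_or_eq with h5 | h5
      · have h6 := h2 ⟨⟨d, by have := hD d s hs; omega⟩, J⟩ h5
        have h7 : ∑ k, a (J k) + ε * ∑ k, v (J k) < -(1 - ε * M') := h6
        linarith
      · have h6 := hM d s hs J hne h5
        nlinarith
  have h4 := hmin _ _ hdest
  have h5 : ∑ j, ((a j + ε * v j) / (1 - ε * M')) ^ 2 =
      (∑ j, a j ^ 2 + 2 * ε * ∑ j, a j * v j + ε ^ 2 * ∑ j, v j ^ 2) / (1 - ε * M') ^ 2 := by
    rw [Finset.mul_sum, Finset.mul_sum, ← Finset.sum_add_distrib, ← Finset.sum_add_distrib,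
      Finset.sum_div]
    refine Finset.sum_congr rfl fun j _ => ?_
    rw [div_pow]
    congr 1
    ring
  rw [h5, le_div_iff₀ (by positivity)] at h4
  have h6 : 0 ≤ ε * (2 * (∑ j, a j * v j + M' * ∑ j, a j ^ 2) +
      ε * (∑ j, v j ^ 2 - M' ^ 2 * ∑ j, a j ^ 2)) := by nlinarith
  have h7 := mul_neg_of_pos_of_neg hε0 h3
  linarith

/-- the weights of optimal destabilising flags are rational -/
theorem rational {𝒮 : ∀ d : ℕ, Set (MultilinearMap M (fun _ : Fin d => V) M)} {D : ℕ}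
    (hD : ∀ d, ∀ s ∈ 𝒮 d, d ≤ D) {g : Fin n → V} {a : Fin n → ℝ} (h : Dest 𝒮 g a)
    (hmin : ∀ (e : Fin n → V) (b : Fin n → ℝ), Dest 𝒮 e b → ∑ j, a j ^ 2 ≤ ∑ j, b j ^ 2) :
    ∃ (A : Fin n → ℤ) (m : ℕ), 0 < m ∧ ∀ j, (A j : ℝ) = m * a j := by
  classical
  -- the active weight vectors
  let C : Set (Fin n → ℕ) := insert (fun _ => 1)
    {c | ∃ d, ∃ s ∈ 𝒮 d, ∃ J : Fin d → Fin n, s (fun k => g (J k)) ≠ 0 ∧ ∑ k, a (J k) = -1 ∧
      c = fun j => (Finset.univ.filter fun k => J k = j).card}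
  let Cr : Set (Fin n → ℝ) := (fun (c : Fin n → ℕ) j => (c j : ℝ)) '' C
  have hcount : ∀ {d : ℕ} (w : Fin n → ℝ) (J : Fin d → Fin n), ∑ k, w (J k) =
      ∑ j, ((Finset.univ.filter fun k => J k = j).card : ℝ) * w j := by
    intro d w J
    rw [← Finset.sum_fiberwise_of_maps_to (g := J) (t := Finset.univ)
      (fun _ _ => Finset.mem_univ _)]
    refine Finset.sum_congr rfl fun j _ => ?_
    rw [Finset.sum_congr rfl fun k hk => by rw [(Finset.mem_filter.1 hk).2],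
      Finset.sum_const, nsmul_eq_mul]
  -- orthogonality
  have horth : ∀ u : Fin n → ℝ, (∀ c ∈ C, ∑ j, (c j : ℝ) * u j = 0) → ∑ j, a j * u j = 0 := by
    intro u hu
    have hu0 : ∑ j, u j = 0 := by
      have := hu _ (Set.mem_insert _ _)
      simpa using this
    have hu1 : ∀ d, ∀ s ∈ 𝒮 d, ∀ J : Fin d → Fin n, s (fun k => g (J k)) ≠ 0 →
        ∑ k, a (J k) = -1 → ∑ k, u (J k) = 0 := by
      intro d s hs J hne h1
      rw [hcount]
      exact hu _ (Set.mem_insert_of_mem _ ⟨d, s, hs, J, hne, h1, rfl⟩)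
    have h1 := pert hD h hmin u hu0 0 fun d s hs J hne h1 => (hu1 d s hs J hne h1).le
    have h2 := pert hD h hmin (fun j => - u j) (by rw [Finset.sum_neg_distrib, hu0, neg_zero]) 0
      fun d s hs J hne h1 => by rw [Finset.sum_neg_distrib, hu1 d s hs J hne h1, neg_zero]
    rw [zero_mul, add_zero] at h1 h2
    simp only [mul_neg, Finset.sum_neg_distrib] at h2
    linarith
  have hmem : a ∈ Submodule.span ℝ Cr := by
    by_contra hcon
    obtain ⟨f, hf1, hf2⟩ := Submodule.exists_le_ker_of_notMem hcon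
    apply hf1
    have hf : ∀ x : Fin n → ℝ, f x = ∑ j, x j * f (Pi.single j 1) := by
      intro x
      conv_lhs => rw [← Finset.univ_sum_single x]
      rw [map_sum]
      refine Finset.sum_congr rfl fun j _ => ?_
      have : (Pi.single j (x j) : Fin n → ℝ) = x j • (Pi.single j 1 : Fin n → ℝ) := by
        rw [← Pi.single_smul, smul_eq_mul, mul_one]
      rw [this, map_smul, smul_eq_mul]
    rw [hf]
    refine horth _ fun c hc => ?_
    have h1 : (fun j => (c j : ℝ)) ∈ LinearMap.ker f :=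
      hf2 (Submodule.subset_span ⟨c, hc, rfl⟩)
    rw [LinearMap.mem_ker, hf] at h1
    exact h1
  obtain ⟨r, x, y, hxy⟩ := Submodule.mem_span_set'.1 hmem
  choose z hzC hz using fun i => (y i).2
  -- a rational retraction
  obtain ⟨ρ, hρ⟩ : ∃ ρ : ℝ →ₗ[ℚ] ℚ, ρ 1 = 1 := by
    obtain ⟨ρ, hρ⟩ := LinearMap.exists_leftInverse_of_injective
      (LinearMap.toSpanSingleton ℚ ℝ 1) (by
        rw [LinearMap.ker_eq_bot]
        intro p q hpq
        simpa using hpq)
    refine ⟨ρ, ?_⟩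
    have h1 := congrArg (fun φ => φ 1) hρ
    simpa using h1
  have hρn : ∀ (x : ℝ) (k : ℕ), ρ ((k : ℝ) * x) = k * ρ x := by
    intro x k
    rw [← nsmul_eq_mul, map_nsmul, nsmul_eq_mul]
  have haj : ∀ j, a j = ∑ i, (z i j : ℝ) * x i := by
    intro j
    have h1 := congrFun hxy j
    rw [← h1, Finset.sum_apply]
    refine Finset.sum_congr rfl fun i _ => ?_
    rw [Pi.smul_apply, ← hz i, smul_eq_mul, mul_comm]
  have hρa : ∀ j, ((ρ (a j) : ℚ) : ℝ) = ∑ i, (z i j : ℝ) * ρ (x i) := by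
    intro j
    rw [haj j, map_sum]
    push_cast
    refine Finset.sum_congr rfl fun i _ => ?_
    rw [hρn]
    push_cast
    rfl
  -- the difference
  obtain ⟨u, hu⟩ : ∃ u : Fin n → ℝ, ∀ j, u j = a j - ρ (a j) := ⟨_, fun _ => rfl⟩
  have huC : ∀ c ∈ C, ∑ j, (c j : ℝ) * u j = 0 := by
    intro c hc
    have h1 : ∀ w : ℚ, ∑ j, (c j : ℝ) * a j = w → ∑ j, (c j : ℝ) * u j = 0 := by
      intro w hw
      have h2 : ρ (∑ j, (c j : ℝ) * a j) = w := by
        rw [hw]
        have h3 : ((w : ℚ) : ℝ) = w • (1 : ℝ) := by rw [Rat.smul_def, mul_one]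
        rw [h3, map_smul, hρ, smul_eq_mul, mul_one]
      rw [map_sum] at h2
      simp only [hρn] at h2
      have h3 : ∑ j, (c j : ℝ) * (ρ (a j) : ℝ) = w := by
        rw [← h2]
        push_cast
        rfl
      simp only [hu, mul_sub, Finset.sum_sub_distrib]
      rw [hw, h3, sub_self]
    rcases hc with rfl | ⟨d, s, hs, J, hne, h2, rfl⟩
    · refine h1 0 ?_
      simp only [Nat.cast_one, one_mul]
      rw [h.2.2.1]
      simp
    · refine h1 (-1) ?_
      rw [← hcount, h2]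
      simp
  have hau := horth u huC
  have hρu : ∑ j, (ρ (a j) : ℝ) * u j = 0 := by
    simp only [hρa, Finset.sum_mul]
    rw [Finset.sum_comm]
    refine Finset.sum_eq_zero fun i _ => ?_
    have h1 := huC (z i) (hzC i)
    calc ∑ j, (z i j : ℝ) * ρ (x i) * u j = ρ (x i) * ∑ j, (z i j : ℝ) * u j := by
          rw [Finset.mul_sum]
          exact Finset.sum_congr rfl fun j _ => by ring
      _ = 0 := by rw [h1, mul_zero]
  have huu : ∑ j, u j * u j = 0 := by
    have h1 : ∑ j, u j * u j = ∑ j, a j * u j - ∑ j, (ρ (a j) : ℝ) * u j := by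
      rw [← Finset.sum_sub_distrib]
      refine Finset.sum_congr rfl fun j _ => ?_
      conv_lhs => rw [hu j]
      rw [← hu j]
      rw [hu j]
      ring
    rw [h1, hau, hρu, sub_zero]
  have hu0 : ∀ j, a j = (ρ (a j) : ℝ) := by
    intro j
    have h1 := (Finset.sum_eq_zero_iff_of_nonneg fun j _ => mul_self_nonneg (u j)).1 huu j
      (Finset.mem_univ j)
    have h2 := mul_self_eq_zero.1 h1
    rw [hu] at h2
    linarith
  -- the denominators
  refine ⟨fun j => (∏ i ∈ Finset.univ.erase j, ((ρ (a i)).den : ℤ)) * (ρ (a j)).num,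
    ∏ i, (ρ (a i)).den, Finset.prod_pos fun i _ => (ρ (a i)).den_pos, fun j => ?_⟩
  rw [hu0 j]
  have h1 : ((ρ (a j) : ℚ) : ℝ) = ((ρ (a j)).num : ℝ) / ((ρ (a j)).den : ℝ) := by
    exact_mod_cast (Rat.num_div_den (ρ (a j))).symm
  have h2 : ((ρ (a j)).den : ℝ) ≠ 0 := by exact_mod_cast (ρ (a j)).den_ne_zero
  rw [← Finset.prod_erase_mul Finset.univ _ (Finset.mem_univ j)]
  push_cast
  rw [h1]
  field_simp

end

end Pool.Agent.Helper91.HM
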