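import Mathlib

/-!
Determinants of block triangular matrices.
-/

set_option autoImplicit false
set_option linter.unusedSectionVars false

namespace Pool.Agent.Helper91.HM.Tw

section

variable {R : Type} [CommRing R] {n : ℕ} {e : Fin n → ℤ} {C : Matrix (Fin n) (Fin n) R}

theorem block_transpose {m : Type} [Fintype m] [DecidableEq m] (f : m → ℤ) (C : Matrix m m R)
    (u : ℤ) : (C.transpose.toSquareBlock f u).det = (C.toSquareBlock f u).det := by
  rw [← Matrix.det_transpose]
  rfl

theorem det_blocks (hC : ∀ i j, C i j ≠ 0 → e j ≤ e i) :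
    C.det = ∏ u ∈ Finset.univ.image e, (C.toSquareBlock e u).det := by
  classical
  have h1 : C.transpose.BlockTriangular e := fun i j hij => by
    by_contra hne
    exact absurd (hC j i hne) (not_le.2 hij)
  rw [← Matrix.det_transpose, h1.det]
  exact Finset.prod_congr rfl fun u _ => block_transpose e C u

theorem det_blocks_le (hC : ∀ i j, C i j ≠ 0 → e j ≤ e i) (t : ℤ) {r : ℕ}
    (σ : Fin r ≃ {l // e l ≤ t}) :
    (Matrix.of fun i j => C (σ i).1 (σ j).1).det =
      ∏ u ∈ (Finset.univ.image e).filter (· ≤ t), (C.toSquareBlock e u).det := by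
  classical
  obtain ⟨C', hC'⟩ : ∃ C' : Matrix {l // e l ≤ t} {l // e l ≤ t} R,
    C' = Matrix.of fun i j => C i.1 j.1 := ⟨_, rfl⟩
  have h0 : (Matrix.of fun i j => C (σ i).1 (σ j).1) = C'.submatrix σ σ := by
    ext i j
    rw [hC', Matrix.submatrix_apply, Matrix.of_apply, Matrix.of_apply]
  rw [h0, Matrix.det_submatrix_equiv_self]
  have h1 : C'.transpose.BlockTriangular (fun l : {l // e l ≤ t} => e l.1) := fun i j hij => by
    rw [Matrix.transpose_apply, hC', Matrix.of_apply]
    by_contra hne
    exact absurd (hC j.1 i.1 hne) (not_le.2 hij)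
  rw [← Matrix.det_transpose, h1.det]
  have h2 : Finset.univ.image (fun l : {l // e l ≤ t} => e l.1) =
      (Finset.univ.image e).filter (· ≤ t) := by
    ext u
    simp only [Finset.mem_image, Finset.mem_univ, true_and, Finset.mem_filter, Subtype.exists,
      exists_prop]
    constructor
    · rintro ⟨l, hl, rfl⟩
      exact ⟨⟨l, rfl⟩, hl⟩
    · rintro ⟨⟨l, rfl⟩, hl⟩
      exact ⟨l, hl, rfl⟩
  rw [h2]
  refine Finset.prod_congr rfl fun u hu => ?_
  rw [block_transpose]
  have hut : u ≤ t := (Finset.mem_filter.1 hu).2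
  let E : {x : {l // e l ≤ t} // e x.1 = u} ≃ {l // e l = u} :=
    { toFun := fun x => ⟨x.1.1, x.2⟩
      invFun := fun l => ⟨⟨l.1, l.2.trans_le hut⟩, l.2⟩
      left_inv := fun x => rfl
      right_inv := fun x => rfl }
  rw [← Matrix.det_submatrix_equiv_self E]
  congr 1
  ext i j
  rw [Matrix.toSquareBlock_def, Matrix.of_apply, Matrix.submatrix_apply, Matrix.toSquareBlock_def,
    Matrix.of_apply, hC', Matrix.of_apply]
  rfl

end

end Pool.Agent.Helper91.HM.Tw
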