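import Pool.Agent.Helper91.HM.Rat

/-!
A tensor on which block diagonal matrices act by a product of powers of the determinants of the
blocks.
-/

set_option autoImplicit false
set_option linter.unusedSectionVars false

namespace Pool.Agent.Helper91.HM

section

variable {R : Type} [CommRing R] {n : ℕ}

/-- the index set -/
abbrev P0 (q : Fin n → ℕ) : Type := Σ j : Fin n, Fin (q j)

open Classical in
/-- the tensor -/
noncomputable def D0 (R : Type) [CommRing R] (β : Fin n → ℤ) (q : Fin n → ℕ) (I : P0 q → Fin n) : R :=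
  (Matrix.of fun x y : P0 q =>
    if ((x.2 : ℕ) = y.2 ∧ β x.1 = β y.1) ∧ I x = y.1 then (1 : R) else 0).det

open Classical in
/-- the character -/
noncomputable def chi (β : Fin n → ℤ) (q : Fin n → ℕ) (g : Matrix (Fin n) (Fin n) R) : R :=
  (Matrix.of fun x y : P0 q =>
    if ((x.2 : ℕ) = y.2 ∧ β x.1 = β y.1) then g x.1 y.1 else 0).det

theorem P0_ext {q : Fin n → ℕ} {x y : P0 q} (h1 : x.1 = y.1) (h2 : (x.2 : ℕ) = y.2) : x = y := by
  obtain ⟨j, c⟩ := x
  obtain ⟨j', c'⟩ := y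
  dsimp only at h1 h2
  subst h1
  congr 1
  exact Fin.ext h2

theorem D0_diag (β : Fin n → ℤ) (q : Fin n → ℕ) : D0 R β q (fun x => x.1) = 1 := by
  classical
  rw [D0]
  have h1 : (Matrix.of fun x y : P0 q =>
    if ((x.2 : ℕ) = y.2 ∧ β x.1 = β y.1) ∧ x.1 = y.1 then (1 : R) else 0) = 1 := by
    ext x y
    rw [Matrix.of_apply, Matrix.one_apply]
    refine if_congr ⟨fun h => P0_ext h.2 h.1.1, fun h => ?_⟩ rfl rfl
    rw [h]
    exact ⟨⟨rfl, rfl⟩, rfl⟩
  rw [h1, Matrix.det_one]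

theorem D0_count {β : Fin n → ℤ} {q : Fin n → ℕ} {I : P0 q → Fin n} (h : D0 R β q I ≠ 0)
    (i : Fin n) : (Finset.univ.filter fun x => I x = i).card = q i := by
  classical
  rw [D0, Matrix.det_apply] at h
  obtain ⟨σ, -, hσ⟩ := Finset.exists_ne_zero_of_sum_ne_zero h
  have h1 : ∏ x, (Matrix.of fun x y : P0 q =>
    if ((x.2 : ℕ) = y.2 ∧ β x.1 = β y.1) ∧ I x = y.1 then (1 : R) else 0) (σ x) x ≠ 0 :=
    fun h0 => hσ (by rw [h0, smul_zero])
  have h2 : ∀ x, I (σ x) = x.1 := by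
    intro x
    by_contra hne
    apply h1
    refine Finset.prod_eq_zero (Finset.mem_univ x) ?_
    rw [Matrix.of_apply, if_neg fun h3 => hne h3.2]
  have h3 : (Finset.univ.filter fun x => I x = i).card =
      (Finset.univ.filter fun x : P0 q => x.1 = i).card := by
    refine (Finset.card_equiv σ fun x => ?_).symm
    rw [Finset.mem_filter, Finset.mem_filter, h2]
    simp
  rw [h3]
  have h4 : (Finset.univ.filter fun x : P0 q => x.1 = i) =
      Finset.univ.map ⟨fun c : Fin (q i) => (⟨i, c⟩ : P0 q), fun c c' h => by simpa using h⟩ := by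
    ext ⟨j, c⟩
    simp only [Finset.mem_filter, Finset.mem_univ, true_and, Finset.mem_map]
    constructor
    · rintro rfl
      exact ⟨c, rfl⟩
    · rintro ⟨c', hc'⟩
      exact (congrArg Sigma.fst hc').symm
  rw [h4, Finset.card_map, Finset.card_univ, Fintype.card_fin]

theorem act_D0 {β : Fin n → ℤ} {q : Fin n → ℕ} (hq : ∀ i j, β i = β j → q i = q j)
    {g : Matrix (Fin n) (Fin n) R} (hg : ∀ i j, g i j ≠ 0 → β i = β j) (J : P0 q → Fin n) :
    act g (D0 R β q) J = chi β q g * D0 R β q J := by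
  classical
  have h1 : act g (D0 R β q) J = (Matrix.of fun x y : P0 q =>
      if ((x.2 : ℕ) = y.2 ∧ β x.1 = β y.1) then g (J x) y.1 else 0).det := by
    have h2 := (Matrix.detRowAlternating (n := P0 q) (R := R)).toMultilinearMap.map_sum
      (fun (x : P0 q) (l : Fin n) => g (J x) l • (fun y : P0 q =>
        if ((x.2 : ℕ) = y.2 ∧ β x.1 = β y.1) ∧ l = y.1 then (1 : R) else 0))
    have h3 : (fun x : P0 q => ∑ l : Fin n, g (J x) l • (fun y : P0 q =>
        if ((x.2 : ℕ) = y.2 ∧ β x.1 = β y.1) ∧ l = y.1 then (1 : R) else 0)) =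
        (Matrix.of fun x y : P0 q =>
          if ((x.2 : ℕ) = y.2 ∧ β x.1 = β y.1) then g (J x) y.1 else 0) := by
      funext x y
      rw [Finset.sum_apply, Finset.sum_eq_single y.1]
      · rw [Pi.smul_apply, smul_eq_mul, Matrix.of_apply]
        by_cases h : (x.2 : ℕ) = y.2 ∧ β x.1 = β y.1
        · rw [if_pos ⟨h, rfl⟩, if_pos h, mul_one]
        · rw [if_neg fun h' => h h'.1, if_neg h, mul_zero]
      · intro l _ hl
        rw [Pi.smul_apply, if_neg fun h' => hl h'.2, smul_zero]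
      · intro h
        exact absurd (Finset.mem_univ _) h
    rw [h3] at h2
    have h4 : (Matrix.of fun x y : P0 q =>
      if ((x.2 : ℕ) = y.2 ∧ β x.1 = β y.1) then g (J x) y.1 else 0).det = _ := h2
    rw [h4, act]
    refine Finset.sum_congr rfl fun I _ => ?_
    have h5 := (Matrix.detRowAlternating (n := P0 q) (R := R)).toMultilinearMap.map_smul_univ
      (fun x : P0 q => g (J x) (I x)) (fun (x : P0 q) => (fun y : P0 q =>
        if ((x.2 : ℕ) = y.2 ∧ β x.1 = β y.1) ∧ I x = y.1 then (1 : R) else 0))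
    exact h5.symm
  rw [h1, mul_comm, D0, chi, ← Matrix.det_mul]
  congr 1
  ext x y
  rw [Matrix.mul_apply, Matrix.of_apply]
  by_cases h : (x.2 : ℕ) = y.2 ∧ β x.1 = β y.1
  · rw [if_pos h]
    by_cases hJ : β (J x) = β x.1
    · have hlt : (x.2 : ℕ) < q (J x) := by
        rw [hq _ _ hJ]
        exact x.2.2
      rw [Finset.sum_eq_single (⟨J x, ⟨x.2, hlt⟩⟩ : P0 q)]
      · rw [Matrix.of_apply, Matrix.of_apply, if_pos ⟨⟨rfl, hJ.symm⟩, rfl⟩, one_mul,
          if_pos ⟨h.1, hJ.trans h.2⟩]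
      · intro z _ hz
        rw [Matrix.of_apply, if_neg, zero_mul]
        rintro ⟨⟨h2, -⟩, h3⟩
        exact hz (P0_ext h3.symm h2.symm)
      · intro h'
        exact absurd (Finset.mem_univ _) h'
    · have h2 : g (J x) y.1 = 0 := by
        by_contra hne
        exact hJ ((hg _ _ hne).trans h.2.symm)
      rw [h2, Finset.sum_eq_zero]
      intro z _
      rw [Matrix.of_apply, if_neg, zero_mul]
      rintro ⟨⟨-, h3⟩, h4⟩
      exact hJ (by rw [h4, h3])
  · rw [if_neg h, Finset.sum_eq_zero]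
    intro z _
    rw [Matrix.of_apply, Matrix.of_apply]
    by_cases h2 : ((x.2 : ℕ) = z.2 ∧ β x.1 = β z.1) ∧ J x = z.1
    · rw [if_neg fun h3 : (z.2 : ℕ) = y.2 ∧ β z.1 = β y.1 =>
        h ⟨h2.1.1.trans h3.1, h2.1.2.trans h3.2⟩, mul_zero]
    · rw [if_neg h2, zero_mul]

theorem chi_eq {β : Fin n → ℤ} {q : Fin n → ℕ} {Q : ℤ → ℕ} (hQ : ∀ j, q j = Q (β j))
    (g : Matrix (Fin n) (Fin n) R) :
    chi β q g = ∏ t ∈ Finset.univ.image β, (g.toSquareBlock β t).det ^ Q t := by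
  classical
  obtain ⟨lab, hlab⟩ : ∃ lab : P0 q → ℤ ×ₗ ℕ, ∀ x, lab x = toLex (β x.1, (x.2 : ℕ)) :=
    ⟨_, fun _ => rfl⟩
  have hlab' : ∀ x y, lab x = lab y ↔ (x.2 : ℕ) = y.2 ∧ β x.1 = β y.1 := by
    intro x y
    rw [hlab, hlab]
    constructor
    · intro h
      have h1 := congrArg ofLex h
      rw [ofLex_toLex, ofLex_toLex, Prod.mk.injEq] at h1
      exact ⟨h1.2, h1.1⟩
    · rintro ⟨h1, h2⟩
      rw [h1, h2]
  obtain ⟨G, hG⟩ : ∃ G : Matrix (P0 q) (P0 q) R, G = Matrix.of fun x y : P0 q =>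
    if ((x.2 : ℕ) = y.2 ∧ β x.1 = β y.1) then g x.1 y.1 else 0 := ⟨_, rfl⟩
  have hGt : G.BlockTriangular lab := by
    intro x y hxy
    rw [hG, Matrix.of_apply, if_neg]
    intro h
    exact absurd ((hlab' x y).2 h) hxy.ne'
  rw [chi]
  have h0 : (Matrix.of fun x y : P0 q =>
    if ((x.2 : ℕ) = y.2 ∧ β x.1 = β y.1) then g x.1 y.1 else 0) = G := hG.symm
  rw [h0, hGt.det]
  have h1 : ∀ t ∈ Finset.univ.image β, (g.toSquareBlock β t).det ^ Q t =
      ∏ _c ∈ Finset.range (Q t), (g.toSquareBlock β t).det := fun t _ => by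
    rw [Finset.prod_const, Finset.card_range]
  rw [Finset.prod_congr rfl h1, Finset.prod_sigma' (Finset.univ.image β)
    (fun t => Finset.range (Q t)) (fun t _ => (g.toSquareBlock β t).det)]
  refine Finset.prod_bij' (fun u _ => (⟨(ofLex u).1, (ofLex u).2⟩ : Σ _ : ℤ, ℕ))
    (fun x _ => toLex (x.1, x.2)) ?_ ?_ ?_ ?_ ?_
  · intro u hu
    obtain ⟨x, -, rfl⟩ := Finset.mem_image.1 hu
    rw [Finset.mem_sigma, hlab, ofLex_toLex]
    refine ⟨Finset.mem_image_of_mem _ (Finset.mem_univ _), Finset.mem_range.2 ?_⟩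
    rw [← hQ]
    exact x.2.2
  · rintro ⟨t, c⟩ hx
    rw [Finset.mem_sigma] at hx
    obtain ⟨j, -, hj⟩ := Finset.mem_image.1 hx.1
    have hc := Finset.mem_range.1 hx.2
    dsimp only at hj hc ⊢
    rw [← hj, ← hQ] at hc
    refine Finset.mem_image.2 ⟨⟨j, ⟨c, hc⟩⟩, Finset.mem_univ _, ?_⟩
    rw [hlab, ← hj]
  · intro u _
    rfl
  · intro x _
    rfl
  · intro u hu
    obtain ⟨x0, -, rfl⟩ := Finset.mem_image.1 hu
    have h2 : (G.toSquareBlock lab (lab x0)) =
        (g.toSquareBlock β (β x0.1)).submatrix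
          (fun x : {x // lab x = lab x0} => (⟨x.1.1, ((hlab' _ _).1 x.2).2⟩ : {j // β j = β x0.1}))
          (fun x : {x // lab x = lab x0} =>
            (⟨x.1.1, ((hlab' _ _).1 x.2).2⟩ : {j // β j = β x0.1})) := by
      ext x y
      rw [Matrix.toSquareBlock_def, Matrix.of_apply, Matrix.submatrix_apply,
        Matrix.toSquareBlock_def, Matrix.of_apply, hG, Matrix.of_apply,
        if_pos ((hlab' _ _).1 (x.2.trans y.2.symm))]
    let E : {x // lab x = lab x0} ≃ {j // β j = β x0.1} :=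
      { toFun := fun x => ⟨x.1.1, ((hlab' _ _).1 x.2).2⟩
        invFun := fun j => ⟨⟨j.1, ⟨x0.2, lt_of_lt_of_eq x0.2.2 (by rw [hQ, hQ, j.2])⟩⟩,
          (hlab' _ _).2 ⟨rfl, j.2⟩⟩
        left_inv := fun x => Subtype.ext (P0_ext rfl ((hlab' _ _).1 x.2).1.symm)
        right_inv := fun j => rfl }
    rw [h2]
    have h3 := Matrix.det_submatrix_equiv_self E (g.toSquareBlock β (β x0.1))
    refine h3.trans ?_
    dsimp only
    rw [hlab, ofLex_toLex]

end

end Pool.Agent.Helper91.HM
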