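import Pool.Agent.Helper91.HM.TwDef

/-!
Flags of distributions, sections of the divisors which are given by flags with integral weights, and
the canonical divisors of distributions.
-/

set_option autoImplicit false

namespace Pool.Agent.Helper91.HM.Tw

open Module FF Pool.Agent.W602.GT

variable {K : Type} [Field K] [Algebra ℂ K]

/-- The members of the flag of distributions which is given by the rational vector fields `b j` and
the integers `e j`: the span of the `b j` such that `e j ≤ t`. -/
def member {n : ℕ} (b : Fin n → Derivation ℂ K K) (e : Fin n → ℤ) (t : ℤ) :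
    Submodule K (Derivation ℂ K K) :=
  Submodule.span K (b '' {j | e j ≤ t})

/-- The rational vector fields `D j` are a basis which is adapted to the flag: `D j` lies in the
member with the index `e j`. -/
def Adapted {n : ℕ} (b : Fin n → Derivation ℂ K K) (e : Fin n → ℤ)
    (D : Fin n → Derivation ℂ K K) : Prop :=
  LinearIndependent K D ∧ ∀ j, D j ∈ member b e (e j)

/-- `ω` is a section of the divisor `∑ t (K (t) - K (t-))` where `t` runs through the values of `e`,
`K (t) = K_F + Δ_F` is the canonical divisor of the member `F` of the flag with the index `t`, `Δ_F`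
being the part of `Δ` whose prime divisors are not `F`-invariant, and `K (t-)` belongs to the
preceding member: `ω` is a function of adapted bases which is multiplied by the product of the
`t`-th powers of the determinants of the diagonal blocks under block triangular substitutions, and for
each prime divisor `P` of `X` and each adapted basis `D` of the vector fields which are regular at `P`
the pole of `ω D` has order at most `e i δ P`, if `D i` is not logarithmic at `P`, but all `D j` with
`e j < e i` are. -/
def IsFlagSection {n : ℕ} (X : Set (Place ℂ K)) (δ : Place ℂ K → ℝ)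
    (b : Fin n → Derivation ℂ K K) (e : Fin n → ℤ) (ω : (Fin n → Derivation ℂ K K) → K) : Prop :=
  (∀ (A : Matrix (Fin n) (Fin n) K) (D : Fin n → Derivation ℂ K K), Adapted b e D → A.det ≠ 0 →
    (∀ i j, A i j ≠ 0 → e j ≤ e i) → ω (fun i => ∑ j, A i j • D j) =
      (∏ t ∈ Finset.univ.image e, (A.toSquareBlock e t).det ^ t) * ω D) ∧
  ∀ P ∈ X, Divisorial n P → ∀ D : Fin n → Derivation ℂ K K, Adapted b e D → IsFrame P D →
    ∀ i, ¬ DerLog P (D i) → (∀ j, e j < e i → DerLog P (D j)) →
      ω D = 0 ∨ -(e i * δ P) ≤ (P.ord (ω D) : ℝ)

/-- The Iitaka dimension of the divisor of the flag, see `IsFlagSection`, is at least `κ`: there are a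
nonzero section `ω` and algebraically independent functions `f 1, ..., f κ` such that
`f 1 ω, ..., f κ ω` are sections; for `κ = 0` this says that there is a nonzero section. -/
def FlagIitakaGe {n : ℕ} (X : Set (Place ℂ K)) (δ : Place ℂ K → ℝ)
    (b : Fin n → Derivation ℂ K K) (e : Fin n → ℤ) (κ : ℕ) : Prop :=
  ∃ ω : (Fin n → Derivation ℂ K K) → K, (∃ D, Adapted b e D ∧ ω D ≠ 0) ∧
    IsFlagSection X δ b e ω ∧ ∃ f : Fin κ → K, AlgebraicIndependent ℂ f ∧
      ∀ j, IsFlagSection X δ b e (fun D => f j * ω D)

/-- The vector fields `B i` are a basis, over the valuation ring of `P`, of the vector fields in the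
distribution `U` which are regular at `P`. -/
def IsFrameOf (U : Submodule K (Derivation ℂ K K)) (P : Place ℂ K) {r : ℕ}
    (B : Fin r → Derivation ℂ K K) : Prop :=
  (∀ i, B i ∈ U ∧ DerReg P (B i)) ∧ ∀ D ∈ U, DerReg P D →
    ∃ c : Fin r → K, (∀ i, P.Reg (c i)) ∧ D = ∑ i, c i • B i

/-- The Kodaira dimension of the distribution `U` on the pair `(X, Δ)` is nonnegative: for some
`m > 0` the divisor `m (K_U + Δ_U)` has a nonzero section, where `Δ_U` is the part of `Δ` whose prime
divisors are not `U`-invariant.  Such a section is a function of families of `r = rk U` vector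
fields in `U`, which is multiplied by `det A ^ m` under linear substitutions `A`, and whose value on
bases of the vector fields in `U` which are regular at `P` has a pole of order at most `m δ P`, for
each prime divisor `P` of `X`, and no pole if `P` is invariant, that is, if these vector fields are
logarithmic at `P`. -/
def DistKodairaNonneg (n : ℕ) (X : Set (Place ℂ K)) (δ : Place ℂ K → ℝ)
    (U : Submodule K (Derivation ℂ K K)) : Prop :=
  ∃ m : ℕ, 0 < m ∧ ∃ ω : (Fin (finrank K U) → Derivation ℂ K K) → K,
    (∀ (A : Matrix (Fin (finrank K U)) (Fin (finrank K U)) K)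
      (B : Fin (finrank K U) → Derivation ℂ K K), (∀ i, B i ∈ U) →
        ω (fun i => ∑ j, A i j • B j) = A.det ^ m * ω B) ∧
    (∃ B, (∀ i, B i ∈ U) ∧ ω B ≠ 0) ∧
    ∀ P ∈ X, Divisorial n P → ∀ B, IsFrameOf U P B →
      (ω B = 0 ∨ -(m * δ P) ≤ (P.ord (ω B) : ℝ)) ∧
      ((∀ i, DerLog P (B i)) → ω B = 0 ∨ 0 ≤ P.ord (ω B))

end Pool.Agent.Helper91.HM.Tw
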