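import Pool.Agent.Helper91.LV.Lead
import Pool.Agent.Helper91.LV.LvDef
import Pool.Agent.Helper91.HM.TwMain

/-!
The forms which are given by invariants of the leading parts.
-/

set_option autoImplicit false
set_option linter.unusedSectionVars false

namespace Pool.Agent.Helper91.HM.Tw

open Module FF Pool.Agent.W602.GT Pool.Agent.W603.LV Pool.Agent.TH143.GT Pool.Agent.Y220.OG
  Pool.Agent.Helper12.BL Pool.Agent.Helper91.HM

variable {K : Type} [Field K] [Algebra ℂ K] {n : ℕ}

section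

variable {ι : Type} {N : ι → ℕ}

/-- the coordinates of the leading parts -/
noncomputable def lcrd (A : Fin n → ℤ) (w : ℤ) (s : ∀ x : ι, (Fin n → Derivation ℂ K K) →
      MultilinearMap K (fun _ : Fin (N x) => Derivation ℂ K K) K) (D : Fin n → Derivation ℂ K K) :
    ∀ x, (Fin (N x) → Fin n) → K :=
  fun x => lead A w (crd (fun x => s x D) D x)

theorem lcrd_lt {A : Fin n → ℤ} {w : ℤ} {s : ∀ x : ι, (Fin n → Derivation ℂ K K) →
      MultilinearMap K (fun _ : Fin (N x) => Derivation ℂ K K) K} {a : ι → ℤ}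
    (hs : ∀ x (C : Matrix (Fin n) (Fin n) K) (B : Fin n → Derivation ℂ K K),
      LinearIndependent K B → C.det ≠ 0 → s x (lt C B) = C.det ^ a x • s x B)
    {D : Fin n → Derivation ℂ K K} (hD : LinearIndependent K D)
    (hsupp : ∀ x (J : Fin (N x) → Fin n), s x D (fun k => D (J k)) ≠ 0 → ∑ k, A (J k) ≤ w)
    {C : Matrix (Fin n) (Fin n) K} (hC : C.det ≠ 0) (hCA : ∀ i j, C i j ≠ 0 → A i ≤ A j) (x : ι) :
    lcrd A w s (lt C D) x = fun J => C.det ^ a x * act (dg A C) (lcrd A w s D x) J := by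
  classical
  have h1 : crd (fun x => s x (lt C D)) (lt C D) x =
      fun J => C.det ^ a x * act C (crd (fun x => s x D) D x) J := by
    funext J
    have h2 := congrFun (crd_act (fun x => s x D) D C x) J
    have h3 : crd (fun x => s x D) (lt C D) x J = act C (crd (fun x => s x D) D x) J := h2
    rw [← h3]
    change s x (lt C D) (fun k => lt C D (J k)) = C.det ^ a x * s x D (fun k => lt C D (J k))
    rw [hs x C D hD hC, smul_apply, smul_eq_mul]
  have h4 := lead_act (A := A) (w := w) (T := crd (fun x => s x D) D x)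
    (fun I hI => hsupp x I hI) hCA
  funext J
  rw [lcrd, h1, lcrd, ← h4, lead, lead]
  split_ifs
  · rfl
  · rw [mul_zero]

theorem RR_smul (A : Fin n → ℤ) (q : Fin n → ℕ) (k : ℕ) (T : ∀ i, (Fin (N i) → Fin n) → K)
    (c : ι → K) (x : ι) (I : Fin (Fintype.card (IR N q k x)) → Fin n) :
    RR A q k (fun x J => c x * T x J) x I = c x ^ k * RR A q k T x I := by
  rw [RR, RR, wordT, wordT, Finset.prod_mul_distrib, Finset.prod_const, Finset.card_univ,
    Fintype.card_fin]
  ring

end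

variable [Algebra ℝ K] [IsScalarTower ℝ ℂ K] {Q : Type} [Fintype Q] [DecidableEq Q] {M : Q → ℕ}

/-- the form which is given by an invariant -/
noncomputable def LF (A : Fin n → ℤ) (w : ℤ) (q : Fin n → ℕ) (k : ℕ)
    (s : ∀ x : Q, (Fin n → Derivation ℂ K K) →
      MultilinearMap K (fun _ : Fin (M x) => Derivation ℂ K K) K)
    (p : ((Σ x, Fin (Fintype.card (IR M q k x))) → Fin n) → ℝ) (D : Fin n → Derivation ℂ K K) : K :=
  ∑ I, algebraMap ℝ K (p I) * ∏ x, RR A q k (lcrd A w s D) x (fun l => I ⟨x, l⟩)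

theorem LF_smul (A : Fin n → ℤ) (w : ℤ) (q : Fin n → ℕ) (k : ℕ)
    (s : ∀ x : Q, (Fin n → Derivation ℂ K K) →
      MultilinearMap K (fun _ : Fin (M x) => Derivation ℂ K K) K)
    (p : ((Σ x, Fin (Fintype.card (IR M q k x))) → Fin n) → ℝ) (c : Q → K)
    (D : Fin n → Derivation ℂ K K) :
    LF A w q k (fun x B => c x • s x B) p D = (∏ x, c x) ^ k * LF A w q k s p D := by
  classical
  rw [LF, LF, Finset.mul_sum]
  refine Finset.sum_congr rfl fun I _ => ?_
  have h1 : (lcrd A w (fun x B => c x • s x B) D) = fun x J => c x * lcrd A w s D x J := by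
    funext x J
    rw [lcrd, lcrd, lead, lead]
    split_ifs
    · rfl
    · rw [mul_zero]
  rw [h1]
  simp only [RR_smul]
  rw [Finset.prod_mul_distrib, Finset.prod_pow]
  ring

theorem LF_lt {A : Fin n → ℤ} {w : ℤ} {q : Fin n → ℕ} (hq : ∀ i j, A i = A j → q i = q j) {k : ℕ}
    {s : ∀ x : Q, (Fin n → Derivation ℂ K K) →
      MultilinearMap K (fun _ : Fin (M x) => Derivation ℂ K K) K} {a : Q → ℤ}
    (hs : ∀ x (C : Matrix (Fin n) (Fin n) K) (B : Fin n → Derivation ℂ K K),
      LinearIndependent K B → C.det ≠ 0 → s x (lt C B) = C.det ^ a x • s x B)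
    {p : ((Σ x, Fin (Fintype.card (IR M q k x))) → Fin n) → ℝ} (hp : SLInv p) {m : ℕ}
    (hm : ∀ I', p I' ≠ 0 → ∀ i, (Finset.univ.filter fun k => I' k = i).card = m)
    {D : Fin n → Derivation ℂ K K} (hD : LinearIndependent K D)
    (hsupp : ∀ x (J : Fin (M x) → Fin n), s x D (fun k => D (J k)) ≠ 0 → ∑ k, A (J k) ≤ w)
    {C : Matrix (Fin n) (Fin n) K} (hC : C.det ≠ 0) (hCA : ∀ i j, C i j ≠ 0 → A i ≤ A j)
    (hchi : chi A q C ≠ 0) :
    LF A w q k s p (lt C D) =
      C.det ^ ((m : ℤ) + k * ∑ x, a x) * ((chi A q C) ^ Fintype.card Q)⁻¹ * LF A w q k s p D := by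
  classical
  have hdg : ∀ i j, dg A C i j ≠ 0 → A i = A j := fun i j h => dg_ne h
  have h1 : lcrd A w s (lt C D) = fun x J => C.det ^ a x * act (dg A C) (lcrd A w s D x) J :=
    funext fun x => lcrd_lt hs hD hsupp hC hCA x
  have h2 : ∀ x (J : Fin (Fintype.card (IR M q k x)) → Fin n),
      RR A q k (lcrd A w s (lt C D)) x J = (C.det ^ a x) ^ k * (chi A q C)⁻¹ *
        act (dg A C) (RR A q k (lcrd A w s D) x) J := by
    intro x J
    rw [h1, RR_smul A q k (fun x => act (dg A C) (lcrd A w s D x)) (fun x => C.det ^ a x) x J,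
      act_RR hq k (lcrd A w s D) x hdg J, chi_dg]
    field_simp
  have h3 : ∀ I : (Σ x, Fin (Fintype.card (IR M q k x))) → Fin n,
      ∏ x, RR A q k (lcrd A w s (lt C D)) x (fun l => I ⟨x, l⟩) =
      C.det ^ (k * ∑ x, a x) * ((chi A q C) ^ Fintype.card Q)⁻¹ *
        act (dg A C) (wordT (RR A q k (lcrd A w s D)) id) I := by
    intro I
    have h4 := act_word (RR A q k (lcrd A w s D)) id (dg A C) I
    refine Eq.trans ?_ (congrArg _ h4.symm)
    simp only [h2]
    rw [Finset.prod_mul_distrib, Finset.prod_mul_distrib, Finset.prod_const, Finset.card_univ,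
      inv_pow]
    congr 2
    rw [Finset.prod_pow, prod_zpow' hC, ← zpow_natCast, ← zpow_mul, mul_comm]
  rw [LF]
  simp only [h3]
  have h5 : ∑ I : (Σ x, Fin (Fintype.card (IR M q k x))) → Fin n, algebraMap ℝ K (p I) *
      act (dg A C) (wordT (RR A q k (lcrd A w s D)) id) I = C.det ^ m * LF A w q k s p D := by
    rw [LF, Finset.mul_sum]
    simp only [act, Finset.mul_sum]
    rw [Finset.sum_comm]
    refine Finset.sum_congr rfl fun I _ => ?_
    have h6 := hp.semi hm (dg A C) I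
    rw [det_dg hCA] at h6
    have h7 : wordT (RR A q k (lcrd A w s D)) id I =
      ∏ x, RR A q k (lcrd A w s D) x (fun l => I ⟨x, l⟩) := rfl
    rw [← mul_assoc, ← h6, Finset.sum_mul, ← h7]
    exact Finset.sum_congr rfl fun J _ => (mul_assoc _ _ _).symm
  have h8 : ∀ I : (Σ x, Fin (Fintype.card (IR M q k x))) → Fin n, algebraMap ℝ K (p I) *
      (C.det ^ (k * ∑ x, a x) * ((chi A q C) ^ Fintype.card Q)⁻¹ *
        act (dg A C) (wordT (RR A q k (lcrd A w s D)) id) I) =
      C.det ^ (k * ∑ x, a x) * ((chi A q C) ^ Fintype.card Q)⁻¹ * (algebraMap ℝ K (p I) *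
        act (dg A C) (wordT (RR A q k (lcrd A w s D)) id) I) := fun I => by ring
  rw [Finset.sum_congr rfl fun I _ => h8 I, ← Finset.mul_sum, h5, zpow_add₀ hC, zpow_natCast]
  ring

end Pool.Agent.Helper91.HM.Tw
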