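import Pool.Agent.Helper91.LV.Det

/-!
Leading parts of tensors, and the semistability of the leading part of an optimally destabilised
family.
-/

set_option autoImplicit false
set_option linter.unusedSectionVars false

namespace Pool.Agent.Helper91.HM

open Module

section

variable {R : Type} [CommRing R] {n : ℕ} {P : Type} [Fintype P] [DecidableEq P]

/-- the part of weight `w` -/
def lead (A : Fin n → ℤ) (w : ℤ) (T : (P → Fin n) → R) : (P → Fin n) → R :=
  fun J => if ∑ k, A (J k) = w then T J else 0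

/-- the block diagonal part of a matrix -/
def dg (A : Fin n → ℤ) (g : Matrix (Fin n) (Fin n) R) : Matrix (Fin n) (Fin n) R :=
  Matrix.of fun i j => if A i = A j then g i j else 0

theorem dg_apply (A : Fin n → ℤ) (g : Matrix (Fin n) (Fin n) R) (i j : Fin n) :
    dg A g i j = if A i = A j then g i j else 0 := rfl

theorem dg_ne {A : Fin n → ℤ} {g : Matrix (Fin n) (Fin n) R} {i j : Fin n}
    (h : dg A g i j ≠ 0) : A i = A j := by
  by_contra hne
  exact h (if_neg hne)

theorem lead_act {A : Fin n → ℤ} {w : ℤ} {T : (P → Fin n) → R}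
    (hT : ∀ I, T I ≠ 0 → ∑ k, A (I k) ≤ w) {g : Matrix (Fin n) (Fin n) R}
    (hg : ∀ i j, g i j ≠ 0 → A i ≤ A j) : lead A w (act g T) = act (dg A g) (lead A w T) := by
  classical
  funext J
  by_cases hJ : ∑ k, A (J k) = w
  · rw [lead, if_pos hJ, act, act]
    refine Finset.sum_congr rfl fun I _ => ?_
    by_cases hI : ∀ k, A (J k) = A (I k)
    · have h1 : ∑ k, A (I k) = w := by
        rw [← hJ]
        exact Finset.sum_congr rfl fun k _ => (hI k).symm
      rw [lead, if_pos h1]
      congr 1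
      exact Finset.prod_congr rfl fun k _ => by rw [dg_apply, if_pos (hI k)]
    · push Not at hI
      obtain ⟨k0, hk0⟩ := hI
      have h1 : ∏ k, dg A g (J k) (I k) = 0 :=
        Finset.prod_eq_zero (Finset.mem_univ k0) (by rw [dg_apply, if_neg hk0])
      rw [h1, zero_mul]
      by_contra hne
      have h2 : ∏ k, g (J k) (I k) ≠ 0 := fun h => hne (by rw [h, zero_mul])
      have h3 : T I ≠ 0 := fun h => hne (by rw [h, mul_zero])
      have h4 : ∀ k, A (J k) ≤ A (I k) := fun k => by
        refine hg _ _ fun h0 => h2 (Finset.prod_eq_zero (Finset.mem_univ k) h0)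
      have h5 : ∑ k, A (J k) < ∑ k, A (I k) :=
        Finset.sum_lt_sum (fun k _ => h4 k) ⟨k0, Finset.mem_univ _, lt_of_le_of_ne (h4 k0) hk0⟩
      have h6 := hT I h3
      omega
  · rw [lead, if_neg hJ, act]
    symm
    refine Finset.sum_eq_zero fun I _ => ?_
    by_contra hne
    have h2 : ∏ k, dg A g (J k) (I k) ≠ 0 := fun h => hne (by rw [h, zero_mul])
    have h3 : lead A w T I ≠ 0 := fun h => hne (by rw [h, mul_zero])
    have h4 : ∀ k, A (J k) = A (I k) := fun k =>
      dg_ne fun h0 => h2 (Finset.prod_eq_zero (Finset.mem_univ k) h0)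
    apply hJ
    have h5 : ∑ k, A (I k) = w := by
      by_contra h6
      exact h3 (if_neg h6)
    rw [← h5]
    exact Finset.sum_congr rfl fun k _ => h4 k

theorem lead_of_hom {A : Fin n → ℤ} {w : ℤ} {T : (P → Fin n) → R}
    (hT : ∀ I, T I ≠ 0 → ∑ k, A (I k) = w) : lead A w T = T := by
  funext J
  rw [lead]
  split_ifs with h
  · rfl
  · by_contra hne
    exact h (hT J (Ne.symm hne))

theorem act_hom {A : Fin n → ℤ} {w : ℤ} {T : (P → Fin n) → R}
    (hT : ∀ I, T I ≠ 0 → ∑ k, A (I k) = w) {g : Matrix (Fin n) (Fin n) R}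
    (hg : ∀ i j, g i j ≠ 0 → A i ≤ A j) {J : P → Fin n} (hJ : ∑ k, A (J k) = w) :
    act g T J = act (dg A g) T J := by
  have h1 := congrFun (lead_act (fun I hI => (hT I hI).le) hg) J
  rw [lead_of_hom hT, lead, if_pos hJ] at h1
  exact h1

theorem act_equiv {P' : Type} [Fintype P'] [DecidableEq P'] (e : P ≃ P')
    (g : Matrix (Fin n) (Fin n) R) (T : (P → Fin n) → R) (J : P' → Fin n) :
    act g (fun I : P' → Fin n => T (fun x => I (e x))) J = act g T (fun x => J (e x)) := by
  rw [act, act]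
  refine Fintype.sum_equiv (Equiv.arrowCongr e.symm (Equiv.refl _)) _ _ fun I => ?_
  have h1 : (Equiv.arrowCongr e.symm (Equiv.refl _)) I = fun x => I (e x) := rfl
  rw [h1]
  congr 1
  exact (Equiv.prod_comp e fun k => g (J k) (I k)).symm

theorem act_sum {P' : Type} [Fintype P'] [DecidableEq P'] (g : Matrix (Fin n) (Fin n) R)
    (T : (P → Fin n) → R) (T' : (P' → Fin n) → R) (J : P ⊕ P' → Fin n) :
    act g (fun I : P ⊕ P' → Fin n => T (fun x => I (Sum.inl x)) * T' (fun x => I (Sum.inr x))) J =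
      act g T (fun x => J (Sum.inl x)) * act g T' (fun x => J (Sum.inr x)) := by
  rw [act, act, act, Finset.sum_mul_sum, ← Fintype.sum_prod_type']
  refine Fintype.sum_equiv (Equiv.sumArrowEquivProdArrow P P' (Fin n)) _ _ fun I => ?_
  have h1 : (Equiv.sumArrowEquivProdArrow P P' (Fin n)) I =
    (fun x => I (Sum.inl x), fun x => I (Sum.inr x)) := rfl
  rw [h1]
  dsimp only
  rw [Fintype.prod_sum_type]
  ring

theorem act_mul_const (c : R) (g : Matrix (Fin n) (Fin n) R) (T : (P → Fin n) → R) :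
    act g (fun I => c * T I) = fun J => c * act g T J := by
  funext J
  rw [act, act, Finset.mul_sum]
  exact Finset.sum_congr rfl fun I _ => by ring

/-- the determinants of the blocks -/
theorem det_dg {A : Fin n → ℤ} {g : Matrix (Fin n) (Fin n) R}
    (hg : ∀ i j, g i j ≠ 0 → A i ≤ A j) : (dg A g).det = g.det := by
  classical
  have h1 : g.BlockTriangular A := fun i j hij => by
    by_contra hne
    exact absurd (hg i j hne) (not_le.2 hij)
  have h2 : (dg A g).BlockTriangular A := fun i j hij => by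
    rw [dg_apply, if_neg hij.ne']
  rw [h1.det, h2.det]
  refine Finset.prod_congr rfl fun t _ => ?_
  congr 1
  ext i j
  rw [Matrix.toSquareBlock_def, Matrix.of_apply, Matrix.toSquareBlock_def, Matrix.of_apply,
    dg_apply, if_pos (i.2.trans j.2.symm)]

theorem chi_dg (A : Fin n → ℤ) (q : Fin n → ℕ) (g : Matrix (Fin n) (Fin n) R) :
    chi A q (dg A g) = chi A q g := by
  classical
  rw [chi, chi]
  congr 1
  ext x y
  rw [Matrix.of_apply, Matrix.of_apply]
  split_ifs with h
  · rw [dg_apply, if_pos h.2]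
  · rfl

end

section

variable {K : Type} [Field K] {n : ℕ} {ι : Type} {N : ι → ℕ}

/-- the index set of the modified tensors -/
abbrev IR (N : ι → ℕ) (q : Fin n → ℕ) (k : ℕ) (i : ι) : Type := (Σ _ : Fin k, Fin (N i)) ⊕ P0 q

/-- the modified tensors -/
noncomputable def RR (A : Fin n → ℤ) (q : Fin n → ℕ) (k : ℕ) (T : ∀ i, (Fin (N i) → Fin n) → K)
    (i : ι) : (Fin (Fintype.card (IR N q k i)) → Fin n) → K :=
  fun I => wordT T (fun _ : Fin k => i) (fun x => I (Fintype.equivFin (IR N q k i) (Sum.inl x))) *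
    D0 K A q (fun x => I (Fintype.equivFin (IR N q k i) (Sum.inr x)))

theorem act_RR {A : Fin n → ℤ} {q : Fin n → ℕ} (hq : ∀ i j, A i = A j → q i = q j) (k : ℕ)
    (T : ∀ i, (Fin (N i) → Fin n) → K) (i : ι) {g : Matrix (Fin n) (Fin n) K}
    (hg : ∀ i j, g i j ≠ 0 → A i = A j) (J : Fin (Fintype.card (IR N q k i)) → Fin n) :
    act g (RR A q k T i) J = chi A q g * RR A q k (fun i => act g (T i)) i J := by
  classical
  have h1 := act_equiv (Fintype.equivFin (IR N q k i)) g
    (fun I : IR N q k i → Fin n => wordT T (fun _ : Fin k => i) (fun x => I (Sum.inl x)) *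
      D0 K A q (fun x => I (Sum.inr x))) J
  refine h1.trans ?_
  rw [act_sum g (wordT T (fun _ : Fin k => i)) (D0 K A q), act_D0 hq hg, act_word, RR]
  have h2 : wordT (fun i => act g (T i)) (fun _ : Fin k => i)
      (fun x => J (Fintype.equivFin (IR N q k i) (Sum.inl x))) =
      ∏ x : Fin k, act g (T i) (fun l => J (Fintype.equivFin (IR N q k i) (Sum.inl ⟨x, l⟩))) := rfl
  rw [h2]
  ring

/-- sums over the index set of the modified tensors -/
theorem sum_IR {M : Type} [AddCommMonoid M] (q : Fin n → ℕ) (k : ℕ) (i : ι)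
    (F : Fin (Fintype.card (IR N q k i)) → M) :
    ∑ x, F x = ∑ x : Fin k, ∑ l : Fin (N i), F (Fintype.equivFin (IR N q k i) (Sum.inl ⟨x, l⟩)) +
      ∑ z : P0 q, F (Fintype.equivFin (IR N q k i) (Sum.inr z)) := by
  classical
  rw [← Equiv.sum_comp (Fintype.equivFin (IR N q k i)) F, Fintype.sum_sum_type, Fintype.sum_sigma]

theorem sum_D0 {A : Fin n → ℤ} {q : Fin n → ℕ} {I : P0 q → Fin n} (h : D0 K A q I ≠ 0)
    {M : Type} [AddCommMonoid M] (w : Fin n → M) : ∑ x, w (I x) = ∑ j, q j • w j := by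
  classical
  rw [← Finset.sum_fiberwise_of_maps_to (g := I) (t := Finset.univ)
    (fun _ _ => Finset.mem_univ _)]
  refine Finset.sum_congr rfl fun j _ => ?_
  rw [Finset.sum_congr rfl fun k hk => by rw [(Finset.mem_filter.1 hk).2],
    Finset.sum_const, D0_count h]

theorem sum_wt {q : Fin n → ℕ} {A : Fin n → ℤ} {κ0 : ℤ} {m : ℕ}
    (hq : ∀ j, (q j : ℤ) = κ0 + m * A j) {w : Fin n → ℝ} (hw : ∑ j, w j = 0) :
    ∑ j, q j • w j = m * ∑ j, A j * w j := by
  have h1 : ∀ j, q j • w j = κ0 * w j + m * (A j * w j) := by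
    intro j
    rw [nsmul_eq_mul]
    have h2 : (q j : ℝ) = κ0 + m * A j := by exact_mod_cast hq j
    rw [h2]
    ring
  rw [Finset.sum_congr rfl fun j _ => h1 j, Finset.sum_add_distrib, ← Finset.mul_sum, hw,
    mul_zero, zero_add, Finset.mul_sum]

theorem sum_wt' {q : Fin n → ℕ} {A : Fin n → ℤ} {κ0 : ℤ} {m : ℕ}
    (hq : ∀ j, (q j : ℤ) = κ0 + m * A j) (hA : ∑ j, A j = 0) :
    ∑ j, q j • A j = m * ∑ j, A j ^ 2 := by
  have h1 : ∀ j, q j • A j = κ0 * A j + m * A j ^ 2 := by
    intro j
    rw [nsmul_eq_mul]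
    have h2 : (q j : ℤ) = κ0 + m * A j := hq j
    rw [h2]
    ring
  rw [Finset.sum_congr rfl fun j _ => h1 j, Finset.sum_add_distrib, ← Finset.mul_sum, hA,
    mul_zero, zero_add, Finset.mul_sum]

theorem RR_hom {A : Fin n → ℤ} {q : Fin n → ℕ} {κ0 : ℤ} {m : ℕ}
    (hq : ∀ j, (q j : ℤ) = κ0 + m * A j) (hA : ∑ j, A j = 0) {k : ℕ}
    (hk : (k : ℤ) = ∑ j, A j ^ 2) {T : ∀ i, (Fin (N i) → Fin n) → K}
    (hT : ∀ i J, T i J ≠ 0 → ∑ l, A (J l) = -m) (i : ι)
    (I : Fin (Fintype.card (IR N q k i)) → Fin n) (hI : RR A q k T i I ≠ 0) :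
    ∑ x, A (I x) = 0 := by
  classical
  rw [RR] at hI
  have h1 := left_ne_zero_of_mul hI
  have h2 := right_ne_zero_of_mul hI
  rw [wordT, Finset.prod_ne_zero_iff] at h1
  rw [sum_IR, Finset.sum_congr rfl fun x _ => hT i _ (h1 x (Finset.mem_univ x)),
    Finset.sum_const, Finset.card_univ, Fintype.card_fin, sum_D0 h2, sum_wt' hq hA, ← hk,
    nsmul_eq_mul]
  ring

end

/-- flags with the same members have the same weights up to a permutation -/
theorem exists_perm {M V : Type} [Field M] [AddCommGroup V] [Module M V] {n : ℕ}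
    {g g' : Fin n → V} (hg : LinearIndependent M g)
    (hg' : LinearIndependent M g') {a a' : Fin n → ℝ}
    (h : ∀ t, (flag g a t : Submodule M V) = flag g' a' t) :
    ∃ π : Equiv.Perm (Fin n), ∀ j, a' (π j) = a j := by
  classical
  have h1 : ∀ t, Fintype.card {j // a j = t} = Fintype.card {j // a' j = t} := by
    intro t
    have h2 := sum_eq_of_flag hg hg' h (fun x => if x = t then 1 else 0)
    rw [Finset.sum_boole, Finset.sum_boole] at h2
    rw [Fintype.card_subtype, Fintype.card_subtype]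
    exact_mod_cast h2
  exact ⟨Equiv.ofFiberEquiv fun t => Fintype.equivOfCardEq (h1 t), fun j =>
    Equiv.ofFiberEquiv_map _ j⟩

/-- **The leading part of an optimally destabilised family is semistable.** -/
theorem not_noInv {K : Type} [Field K] [Algebra ℝ K] {n : ℕ} (hn : 0 < n) {ι : Type} [Finite ι]
    {N : ι → ℕ} (T : ∀ i, (Fin (N i) → Fin n) → K) (A : Fin n → ℤ) (m : ℕ)
    (hA : ∑ j, A j = 0) (q : Fin n → ℕ) (κ0 : ℤ) (hq : ∀ j, (q j : ℤ) = κ0 + m * A j) (k : ℕ)
    (hk : (k : ℤ) = ∑ j, A j ^ 2) (hk0 : 0 < k)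
    (hT : ∀ i J, T i J ≠ 0 → ∑ l, A (J l) = -m)
    (PI : ∀ g : Matrix (Fin n) (Fin n) K, g.det ≠ 0 → (∀ i j, g i j ≠ 0 → A i = A j) →
      ∀ w : Fin n → ℝ, ∑ j, w j = 0 → ∀ M' : ℝ,
        (∀ i J, act g (T i) J ≠ 0 → ∑ l, w (J l) ≤ M') →
          0 ≤ m * ∑ j, A j * w j + M' * k) :
    ¬ NoInv (RR A q k T) := by
  classical
  intro hNI
  have hqA : ∀ i j, A i = A j → q i = q j := by
    intro i j hij
    have h1 := hq i
    have h2 := hq j
    rw [hij, ← h2] at h1
    exact_mod_cast h1
  obtain ⟨g, v, hg, hv, hact⟩ := hmk hn (RR A q k T) hNI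
  -- the two flags
  obtain ⟨std, hstd⟩ : ∃ std : Fin n → Fin n → K, ∀ j, std j = Pi.single j 1 := ⟨_, fun _ => rfl⟩
  have hstdsum : ∀ c : Fin n → K, ∑ j, c j • std j = c := by
    intro c
    conv_rhs => rw [← Finset.univ_sum_single c]
    refine Finset.sum_congr rfl fun j _ => ?_
    rw [hstd, ← Pi.single_smul, smul_eq_mul, mul_one]
  have hstdli : LinearIndependent K std := by
    rw [Fintype.linearIndependent_iff]
    intro c hc j
    rw [hstdsum] at hc
    exact congrFun hc j
  have hstdsp : Submodule.span K (Set.range std) = ⊤ := by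
    rw [eq_top_iff]
    intro c _
    rw [← hstdsum c]
    exact Submodule.sum_mem _ fun j _ => Submodule.smul_mem _ _ (Submodule.subset_span ⟨j, rfl⟩)
  have hgli : LinearIndependent K (fun j => g j) :=
    Matrix.linearIndependent_rows_iff_isUnit.2
      ((Matrix.isUnit_iff_isUnit_det _).2 (isUnit_iff_ne_zero.2 hg))
  have hgsp : Submodule.span K (Set.range fun j => g j) = ⊤ := by
    apply Submodule.eq_top_of_finrank_eq
    rw [finrank_span_eq_card hgli]
    simp
  have hsplA := split_nrm hn std hstdli hstdsp (fun j => (A j : ℝ))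
  have hsplv := split_nrm hn (fun j => g j) hgli hgsp (fun j => (v j : ℝ))
  obtain ⟨e, u, u', he, he', hespan⟩ := split2 n _ _ _ _ _ _ hsplA hsplv (hstdsp.trans hgsp.symm)
  have hes : Submodule.span K (Set.range e) = ⊤ := hespan.trans hstdsp
  choose b hb using fun j => exists_W (he.1 j)
  choose b' hb' using fun j => exists_W (he'.1 j)
  have hu : u = fun j => W (b j) := funext hb
  have hu' : u' = fun j => W (b' j) := funext hb'
  rw [hu] at he
  rw [hu'] at he'
  have hli : LinearIndependent K e := by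
    rw [Fintype.linearIndependent_iff]
    intro c hc j
    exact he.indep hc j
  have hf : ∀ t, (flag std (fun j => (A j : ℝ)) t : Submodule K (Fin n → K)) = flag e b t :=
    flag_eq_of_split hsplA he hstdsp hes
  have hf' : ∀ t, (flag (fun j => g j) (fun j => (v j : ℝ)) t : Submodule K (Fin n → K)) =
      flag e b' t := flag_eq_of_split hsplv he' hgsp hes
  obtain ⟨π, hπ⟩ := exists_perm hstdli hli hf
  obtain ⟨E, hE⟩ : ∃ E : Matrix (Fin n) (Fin n) K, ∀ j, E j = e (π j) :=
    ⟨fun j => e (π j), fun _ => rfl⟩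
  obtain ⟨w, hw⟩ : ∃ w : Fin n → ℝ, ∀ j, w j = b' (π j) := ⟨_, fun _ => rfl⟩
  have hEli : LinearIndependent K (fun j => E j) := by
    simp only [hE]
    exact hli.comp _ π.injective
  have hEsp : Submodule.span K (Set.range fun j => E j) = ⊤ := by
    apply Submodule.eq_top_of_finrank_eq
    rw [finrank_span_eq_card hEli]
    simp
  have hEdet : E.det ≠ 0 := by
    have h1 : IsUnit E := Matrix.linearIndependent_rows_iff_isUnit.1 hEli
    exact ((Matrix.isUnit_iff_isUnit_det _).1 h1).ne_zero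
  have hEA : ∀ i j, E i j ≠ 0 → A i ≤ A j := by
    intro i j hij
    have h1 : e (π i) ∈ (flag e b (b (π i)) : Submodule K (Fin n → K)) :=
      Submodule.subset_span ⟨π i, le_refl (b (π i)), rfl⟩
    rw [← hf, hπ i] at h1
    obtain ⟨c, hc, hce⟩ := flag_coord h1
    rw [hstdsum, ← hE] at hce
    rw [← hce] at hij
    exact_mod_cast hc j hij
  have hw0 : ∑ j, w j = 0 := by
    simp only [hw]
    rw [Equiv.sum_comp π b']
    have := sum_eq_of_flag hgli hli hf' id
    simp only [id] at this
    rw [← this]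
    exact_mod_cast hv
  -- the common basis is destabilising
  have hDest : Dest (fam (M := K) (RR A q k T)) (fun j => g j) (fun j => (v j : ℝ)) := by
    refine ⟨hgli, hgsp, by beta_reduce; exact_mod_cast hv, ?_⟩
    rintro d s ⟨i, h, hs⟩ J hne
    subst h
    rw [hs] at hne
    have h1 : act g (RR A q k T i) J ≠ 0 := by
      rw [act_eq_form]
      exact hne
    have h2 := hact i J h1
    have h3 : ∑ k, v (J k) ≤ -1 := Int.le_sub_one_iff.2 h2
    beta_reduce
    exact_mod_cast h3
  have hDE : Dest (fam (M := K) (RR A q k T)) (fun j => E j) w := by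
    refine hDest.change hEli hEsp hw0 fun j => ?_
    rw [hf', hw, hE]
    exact Submodule.subset_span ⟨π j, le_refl (b' (π j)), rfl⟩
  have hEact : ∀ i J, act E (RR A q k T i) J ≠ 0 → ∑ x, w (J x) ≤ -1 := by
    intro i J hne
    refine hDE.2.2.2 _ (form fun I => algebraMap K K (RR A q k T i I)) ⟨i, rfl, fun x => rfl⟩ J ?_
    rw [act_eq_form] at hne
    exact hne
  -- the block diagonal part
  have hdg : ∀ i j, dg A E i j ≠ 0 → A i = A j := fun i j h => dg_ne h
  have hdgdet : (dg A E).det ≠ 0 := by rw [det_dg hEA]; exact hEdet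
  by_cases hex : ∃ ω : Om n N, act (dg A E) (T ω.1) ω.2 ≠ 0
  · -- the maximal weight
    have hOm : Finite (Om n N) := inferInstance
    obtain ⟨ω0, hω0, hmax⟩ := Set.exists_max_image
      {ω : Om n N | act (dg A E) (T ω.1) ω.2 ≠ 0} (fun ω => ∑ l, w (ω.2 l)) (Set.toFinite _) hex
    have hPI := PI (dg A E) hdgdet hdg w hw0 (∑ l, w (ω0.2 l))
      fun i J hne => hmax ⟨i, J⟩ hne
    obtain ⟨J, hJ⟩ : ∃ J : Fin (Fintype.card (IR N q k ω0.1)) → Fin n, ∀ x,
        J x = Sum.elim (fun y : (Σ _ : Fin k, Fin (N ω0.1)) => ω0.2 y.2) (fun z : P0 q => z.1)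
          ((Fintype.equivFin (IR N q k ω0.1)).symm x) := ⟨_, fun _ => rfl⟩
    have hJl : ∀ x : Fin k, ∀ l : Fin (N ω0.1),
        J (Fintype.equivFin (IR N q k ω0.1) (Sum.inl ⟨x, l⟩)) = ω0.2 l := fun x l => by
      rw [hJ, Equiv.symm_apply_apply]
      rfl
    have hJr : ∀ z : P0 q, J (Fintype.equivFin (IR N q k ω0.1) (Sum.inr z)) = z.1 := fun z => by
      rw [hJ, Equiv.symm_apply_apply]
      rfl
    have hchi : chi A q (dg A E) ≠ 0 := by
      rw [chi_eq (Q := fun t => (κ0 + m * t).toNat) (fun j => by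
        have := hq j
        omega)]
      refine Finset.prod_ne_zero_iff.2 fun t ht => pow_ne_zero _ ?_
      have h1 : (dg A E).BlockTriangular A := fun i j hij => by
        rw [dg_apply, if_neg hij.ne']
      have h2 := hdgdet
      rw [h1.det] at h2
      exact Finset.prod_ne_zero_iff.1 h2 t ht
    have hRne : act (dg A E) (RR A q k T ω0.1) J ≠ 0 := by
      rw [act_RR hqA k T ω0.1 hdg J]
      refine mul_ne_zero hchi ?_
      rw [RR]
      refine mul_ne_zero ?_ ?_
      · rw [wordT]
        refine Finset.prod_ne_zero_iff.2 fun x _ => ?_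
        simp only [hJl]
        exact hω0
      · simp only [hJr]
        rw [D0_diag]
        exact one_ne_zero
    have hD1 : D0 K A q (fun z : P0 q => z.1) ≠ 0 := by
      rw [D0_diag]
      exact one_ne_zero
    have hJA : ∑ x, A (J x) = 0 := by
      rw [sum_IR]
      simp only [hJl, hJr]
      have h1 : ∑ l, A (ω0.2 l) = -m := by
        have h2 := lead_act (A := A) (w := -m) (T := T ω0.1) (fun I hI => (hT _ I hI).le)
          (g := dg A E) (fun i j hij => (hdg i j hij).le)
        have h3 : dg A (dg A E) = dg A E := by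
          ext i j
          rw [dg_apply, dg_apply]
          split_ifs <;> rfl
        rw [h3, lead_of_hom (hT _)] at h2
        have h4 := congrFun h2 ω0.2
        by_contra hne
        rw [lead, if_neg hne] at h4
        exact hω0 h4.symm
      rw [h1, sum_D0 (K := K) (A := A) hD1 A, sum_wt' hq hA, ← hk, Finset.sum_const,
        Finset.card_univ, Fintype.card_fin, nsmul_eq_mul]
      ring
    have h1 : act E (RR A q k T ω0.1) J ≠ 0 := by
      rw [act_hom (RR_hom hq hA hk hT ω0.1) hEA hJA]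
      exact hRne
    have h2 := hEact _ _ h1
    rw [sum_IR] at h2
    simp only [hJl, hJr] at h2
    rw [sum_D0 (K := K) (A := A) hD1 w, sum_wt hq hw0, Finset.sum_const, Finset.card_univ,
      Fintype.card_fin, nsmul_eq_mul] at h2
    linarith
  · push Not at hex
    have hk1 : (0 : ℝ) < k := by exact_mod_cast hk0
    have hPI := PI (dg A E) hdgdet hdg w hw0 (-(m * ∑ j, A j * w j + 1) / k)
      fun i J hne => absurd (hex ⟨i, J⟩) hne
    rw [div_mul_cancel₀ _ hk1.ne'] at hPI
    linarith

end Pool.Agent.Helper91.HM
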