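import Pool.Agent.Helper91.LV.Reg
import Pool.Agent.Helper91.LV.Kod
import Pool.Agent.Helper91.LV.Wt

/-!
The flag with an effective combination of canonical divisors.
-/

set_option autoImplicit false
set_option linter.unusedSectionVars false

namespace Pool.Agent.Helper91.HM.Tw

open Module FF Pool.Agent.W602.GT Pool.Agent.W603.LV Pool.Agent.TH143.GT Pool.Agent.Y220.OG
  Pool.Agent.Helper12.BL Pool.Agent.Helper91.HM

variable {K : Type} [Field K] [Algebra ℂ K] {n : ℕ}

theorem chi_congr {R : Type} [CommRing R] {β β' : Fin n → ℤ} (h : ∀ i j, β i = β j ↔ β' i = β' j)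
    (q : Fin n → ℕ) (g : Matrix (Fin n) (Fin n) R) : chi β q g = chi β' q g := by
  classical
  rw [chi, chi]
  congr 1
  ext x y
  rw [Matrix.of_apply, Matrix.of_apply]
  refine if_congr ?_ rfl rfl
  rw [h]

section

variable [Algebra ℝ K] [IsScalarTower ℝ ℂ K] {Q : Type} [Fintype Q] [DecidableEq Q] {M : Q → ℕ}

theorem flagSection {X : Set (Place ℂ K)} {δ : Place ℂ K → ℝ} (hδ : ∀ P ∈ X, 0 ≤ δ P)
    {g : Fin n → Derivation ℂ K K}
    {A : Fin n → ℤ} {m : ℕ} (hm : 0 < m) {q : Fin n → ℕ} {κ0 : ℤ}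
    (hq : ∀ j, (q j : ℤ) = κ0 + m * A j) {k : ℕ}
    {s : ∀ x : Q, (Fin n → Derivation ℂ K K) →
      MultilinearMap K (fun _ : Fin (M x) => Derivation ℂ K K) K} {a : Q → ℤ}
    (hs : ∀ x, IsTensor n X δ (a x) (s x))
    (hsupp : ∀ D : Fin n → Derivation ℂ K K, LinearIndependent K D →
      (∀ j, D j ∈ Submodule.span K (g '' {l | A j ≤ A l})) →
        ∀ x (J : Fin (M x) → Fin n), s x D (fun k => D (J k)) ≠ 0 → ∑ k, A (J k) ≤ -m)
    {p : ((Σ x, Fin (Fintype.card (IR M q k x))) → Fin n) → ℝ} (hp : SLInv p) {m' : ℕ}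
    (hm' : ∀ I', p I' ≠ 0 → ∀ i, (Finset.univ.filter fun k => I' k = i).card = m')
    (hQ0 : 0 < Fintype.card Q) {e : Fin n → ℤ}
    (he : ∀ j, e j = m' + k * ∑ x, a x - Fintype.card Q * q j) :
    IsFlagSection X δ g e (LF A (-m) q k s p) := by
  classical
  have hQ0' : (0 : ℤ) < Fintype.card Q := by exact_mod_cast hQ0
  have hm0' : (0 : ℤ) < m := by exact_mod_cast hm
  have heA : ∀ i j, e j ≤ e i ↔ A i ≤ A j := by
    intro i j
    rw [he, he, hq, hq]
    constructor
    · intro h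
      have h1 : (Fintype.card Q : ℤ) * (κ0 + m * A i) ≤ Fintype.card Q * (κ0 + m * A j) := by
        linarith
      have h2 := le_of_mul_le_mul_left h1 hQ0'
      have h3 : (m : ℤ) * A i ≤ m * A j := by linarith
      exact le_of_mul_le_mul_left h3 hm0'
    · intro h
      have h3 := mul_le_mul_of_nonneg_left h hm0'.le
      have h2 : κ0 + m * A i ≤ κ0 + m * A j := by linarith
      have h1 := mul_le_mul_of_nonneg_left h2 hQ0'.le
      linarith
  have heq : ∀ i j, A i = A j ↔ e i = e j := fun i j =>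
    ⟨fun h => le_antisymm ((heA j i).2 h.ge) ((heA i j).2 h.le),
      fun h => le_antisymm ((heA i j).1 h.ge) ((heA j i).1 h.le)⟩
  have hqA : ∀ i j, A i = A j → q i = q j := by
    intro i j hij
    have h1 := hq i
    have h2 := hq j
    rw [hij, ← h2] at h1
    exact_mod_cast h1
  have hadapt : ∀ D : Fin n → Derivation ℂ K K, Adapted g e D →
      ∀ j, D j ∈ Submodule.span K (g '' {l | A j ≤ A l}) := by
    intro D hD j
    have h1 := hD.2 j
    rw [member] at h1
    have h2 : {l | e l ≤ e j} = {l | A j ≤ A l} := by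
      ext l
      exact heA j l
    rwa [h2] at h1
  refine ⟨fun C D hD hC hCe => ?_, fun P hP hdiv D hD hframe i hi hlog => ?_⟩
  · have hCA : ∀ i j, C i j ≠ 0 → A i ≤ A j := fun i j h => (heA i j).1 (hCe i j h)
    have hdet := det_blocks hCe
    have hd : ∀ u ∈ Finset.univ.image e, (C.toSquareBlock e u).det ≠ 0 := by
      rw [hdet] at hC
      exact fun u hu => Finset.prod_ne_zero_iff.1 hC u hu
    have hchi : chi A q C = ∏ t ∈ Finset.univ.image e, (C.toSquareBlock e t).det ^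
        ((m' + k * ∑ x, a x - t) / Fintype.card Q).toNat := by
      rw [chi_congr heq q C]
      refine chi_eq (Q := fun t => ((m' + k * ∑ x, a x - t) / Fintype.card Q).toNat) (fun j => ?_) C
      rw [he, sub_sub_cancel, Int.mul_ediv_cancel_left _ hQ0'.ne', Int.toNat_natCast]
    have hchi0 : chi A q C ≠ 0 := by
      rw [hchi]
      exact Finset.prod_ne_zero_iff.2 fun u hu => pow_ne_zero _ (hd u hu)
    have h1 := LF_lt hqA (a := a) (fun x => (hs x).1) hp hm' hD.1
      (hsupp D hD.1 (hadapt D hD)) hC hCA hchi0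
    change LF A (-m) q k s p (lt C D) = _
    rw [h1]
    congr 1
    rw [hchi, ← Finset.prod_pow, ← Finset.prod_inv_distrib]
    have h2 : C.det ^ ((m' : ℤ) + k * ∑ x, a x) = ∏ u ∈ Finset.univ.image e,
        (C.toSquareBlock e u).det ^ ((m' : ℤ) + k * ∑ x, a x) := by
      rw [hdet, Finset.prod_zpow]
    rw [h2, ← Finset.prod_mul_distrib]
    refine Finset.prod_congr rfl fun u hu => ?_
    obtain ⟨j, -, hj⟩ := Finset.mem_image.1 hu
    have h3 : ((m' + k * ∑ x, a x - u) / Fintype.card Q).toNat = q j := by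
      rw [← hj, he, sub_sub_cancel, Int.mul_ediv_cancel_left _ hQ0'.ne', Int.toNat_natCast]
    rw [h3, ← pow_mul, ← zpow_natCast, ← zpow_neg, ← zpow_add₀ (hd u hu)]
    congr 1
    rw [← hj, he]
    push_cast
    ring
  · have hlog' : ∀ j, A i < A j → DerLog P (D j) := by
      intro j hj
      refine hlog j ?_
      rw [← not_le]
      intro h
      exact absurd ((heA j i).1 h) (not_le.2 hj)
    have h1 := LF_reg hδ (Qf := fun t => (κ0 + m * t).toNat) (fun j => by
      have := hq j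
      omega) hs hp hm' hD.1 (hsupp D hD.1 (hadapt D hD)) hP hdiv hframe hi hlog'
    change Gr P _ _
    refine Gr.mono (le_of_eq ?_) h1
    rw [he]
    push_cast
    ring

end

/-- a nonzero multilinear map does not vanish on a basis -/
theorem exists_ne_of_ne {V : Type} [AddCommGroup V] [Module K V] {N : ℕ}
    {t : MultilinearMap K (fun _ : Fin N => V) K} (ht : t ≠ 0) {g : Fin n → V}
    (hg : LinearIndependent K g) (hgs : Submodule.span K (Set.range g) = ⊤) :
    ∃ J : Fin N → Fin n, t (fun k => g (J k)) ≠ 0 := by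
  by_contra hcon
  push Not at hcon
  apply ht
  refine Basis.ext_multilinear (fun _ => Basis.mk hg hgs.ge) fun J => ?_
  simp only [Basis.mk_apply]
  rw [hcon J]
  rfl

/-- **The flag with an effective combination of canonical divisors.** -/
theorem levi_main {K : Type} [Field K] [Algebra ℂ K] [Algebra.EssFiniteType ℂ K] {n : ℕ}
    (hn : Algebra.trdeg ℂ K = n) (hn0 : 0 < n) (X : Set (Place ℂ K)) (δ : Place ℂ K → ℝ)
    (hδ : ∀ P ∈ X, 0 ≤ δ P) (κ : ℕ) (hκ : ¬ KodairaGe n X δ κ) {N0 : ℕ} {a0 : ℤ}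
    (hN0 : 0 < (N0 : ℤ) + n * a0) {s0 : (Fin n → Derivation ℂ K K) →
      MultilinearMap K (fun _ : Fin N0 => Derivation ℂ K K) K} (hs0 : IsMovable n X δ κ a0 s0)
    (hs0n : ∃ B, LinearIndependent K B ∧ s0 B ≠ 0) :
    ∃ (b : Fin n → Derivation ℂ K K) (e : Fin n → ℤ), LinearIndependent K b ∧ 0 < ∑ j, e j ∧
      (∀ φ : K ≃+* K, Preserves X δ φ → ∀ j, ∀ D ∈ member b e (e j), ∀ D' : Derivation ℂ K K,
        (∀ f, D' (φ f) = φ (D f)) → D' ∈ member b e (e j)) ∧ FlagIitakaGe X δ b e κ := by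
  classical
  let _ : Algebra ℝ K := Algebra.compHom K (algebraMap ℝ ℂ)
  have _ : IsScalarTower ℝ ℂ K := IsScalarTower.of_algebraMap_eq fun _ => rfl
  obtain ⟨e0, he0, he0s⟩ := exists_basis (K := K) hn
  let 𝒮 : ∀ d : ℕ, Set (MultilinearMap K (fun _ : Fin d => Derivation ℂ K K) K) :=
    fun d => {t | d ≤ N0 ∧ t ∈ vals n X δ κ e0 d}
  obtain ⟨b1, a1, hb1, ha1, hdes⟩ := bounded hn hn0 hδ hκ he0 N0
  have hDest1 : Dest 𝒮 b1 (fun j => (a1 j : ℝ)) := by
    refine ⟨hb1, li_span hn hb1, ?_, ?_⟩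
    · beta_reduce
      exact_mod_cast ha1
    · rintro d s ⟨hdm, hs⟩ J hne
      have h2 := hdes d hdm s hs J hne
      have h3 : ∑ k, a1 (J k) ≤ -1 := by omega
      beta_reduce
      exact_mod_cast h3
  have h𝒮D : ∀ d, ∀ s ∈ 𝒮 d, d ≤ N0 := fun d s hs => hs.1
  obtain ⟨g, w, hg, hmin⟩ := exists_min h𝒮D hDest1
  obtain ⟨A, m, hm, hA⟩ := rational h𝒮D hg hmin
  have hmR : (0 : ℝ) < m := by exact_mod_cast hm
  have hA0 : ∑ j, A j = 0 := by
    have h1 : ((∑ j, A j : ℤ) : ℝ) = 0 := by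
      push_cast
      rw [Finset.sum_congr rfl fun j _ => hA j, ← Finset.mul_sum, hg.2.2.1, mul_zero]
    exact_mod_cast h1
  have hAw : ∀ i j, A i ≤ A j ↔ w i ≤ w j := by
    intro i j
    have h1 : (A i : ℝ) ≤ A j ↔ w i ≤ w j := by
      rw [hA, hA]
      exact mul_le_mul_iff_right₀ hmR
    rw [← h1]
    exact Int.cast_le.symm
  have hsumA : ∀ {d : ℕ} (J : Fin d → Fin n), ((∑ k, A (J k) : ℤ) : ℝ) = m * ∑ k, w (J k) := by
    intro d J
    push_cast
    rw [Finset.mul_sum]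
    exact Finset.sum_congr rfl fun k _ => hA _
  -- adapted bases
  have hDestD : ∀ D : Fin n → Derivation ℂ K K, LinearIndependent K D →
      (∀ j, D j ∈ Submodule.span K (g '' {l | A j ≤ A l})) → Dest 𝒮 D w := by
    intro D hD hDA
    refine hg.change hD (li_span hn hD) hg.2.2.1 fun j => ?_
    have h1 := hDA j
    have h2 : {l | A j ≤ A l} = {l | w j ≤ w l} := by
      ext l
      exact hAw j l
    rwa [h2] at h1
  have hval : ∀ {d : ℕ} {a : ℤ} {s : (Fin n → Derivation ℂ K K) →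
      MultilinearMap K (fun _ : Fin d => Derivation ℂ K K) K}, IsMovable n X δ κ a s →
      ∀ D, LinearIndependent K D → ∃ c : K, c ≠ 0 ∧ s D = c • s e0 := by
    intro d a s hs D hD
    obtain ⟨C, hC⟩ := exists_lt (D := D) he0s
    have h3 := (lt_li.1 (hC ▸ hD)).2
    refine ⟨C.det ^ a, zpow_ne_zero _ h3, ?_⟩
    rw [hC]
    exact hs.1.1 C e0 he0 h3
  have hsupp0 : ∀ {d : ℕ} {a : ℤ} {s : (Fin n → Derivation ℂ K K) →
      MultilinearMap K (fun _ : Fin d => Derivation ℂ K K) K}, d ≤ N0 → 0 < (d : ℤ) + n * a →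
      IsMovable n X δ κ a s → ∀ D, LinearIndependent K D →
      (∀ j, D j ∈ Submodule.span K (g '' {l | A j ≤ A l})) → ∀ J : Fin d → Fin n,
        s D (fun k => D (J k)) ≠ 0 → ∑ k, A (J k) ≤ -m := by
    intro d a s hd ha hs D hD hDA J hne
    obtain ⟨c, hc, hce⟩ := hval hs D hD
    have h1 : s e0 (fun k => D (J k)) ≠ 0 := by
      intro h0
      apply hne
      rw [hce, smul_apply, h0, smul_zero]
    have h2 := (hDestD D hD hDA).2.2.2 d (s e0) ⟨hd, a, s, ha, hs, rfl⟩ J h1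
    have h3 : ((∑ k, A (J k) : ℤ) : ℝ) ≤ ((-m : ℤ) : ℝ) := by
      rw [hsumA]
      push_cast
      nlinarith
    exact_mod_cast h3
  -- the weights are not zero
  have hk : 0 < ∑ j, A j ^ 2 := by
    obtain ⟨B, hB, hne⟩ := hs0n
    obtain ⟨J, hJ⟩ := exists_ne_of_ne (t := s0 g) (by
      obtain ⟨c, hc, hce⟩ := hval hs0 B hB
      obtain ⟨c', hc', hce'⟩ := hval hs0 g hg.1
      rw [hce']
      rw [hce] at hne
      exact smul_ne_zero hc' fun h0 => hne (by rw [h0, smul_zero])) hg.1 hg.2.1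
    have h1 := hsupp0 le_rfl hN0 hs0 g hg.1 (fun j => Submodule.subset_span ⟨j, le_refl (A j), rfl⟩)
      J hJ
    refine lt_of_le_of_ne (Finset.sum_nonneg fun j _ => sq_nonneg _) fun h0 => ?_
    have h2 : ∀ j, A j = 0 := fun j => by
      have h3 := (Finset.sum_eq_zero_iff_of_nonneg fun j _ => sq_nonneg (A j)).1 h0.symm j
        (Finset.mem_univ j)
      exact pow_eq_zero_iff (two_ne_zero) |>.1 h3
    simp only [h2, Finset.sum_const_zero] at h1
    omega
  obtain ⟨k, hkk⟩ : ∃ k : ℕ, (k : ℤ) = ∑ j, A j ^ 2 := ⟨_, Int.toNat_of_nonneg hk.le⟩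
  have hk0 : 0 < k := by
    rw [← hkk] at hk
    exact_mod_cast hk
  -- the exponents of the character
  obtain ⟨κ0, hκ0⟩ : ∃ κ0 : ℤ, κ0 = m * ∑ j, |A j| := ⟨_, rfl⟩
  obtain ⟨q, hq⟩ : ∃ q : Fin n → ℕ, ∀ j, (q j : ℤ) = κ0 + m * A j := by
    refine ⟨fun j => (κ0 + m * A j).toNat, fun j => Int.toNat_of_nonneg ?_⟩
    rw [hκ0, ← mul_add]
    refine mul_nonneg (Int.natCast_nonneg _) ?_
    have h1 : |A j| ≤ ∑ j, |A j| := Finset.single_le_sum (f := fun j => |A j|)
      (fun i _ => abs_nonneg _) (Finset.mem_univ j)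
    have h2 := neg_abs_le (A j)
    linarith
  -- a finite family
  have h1 : ∀ N : ℕ, ∃ F : Finset (MultilinearMap K (fun _ : Fin N => Derivation ℂ K K) K),
      (∀ t ∈ F, t ∈ vals n X δ κ e0 N) ∧
      ∀ t ∈ vals n X δ κ e0 N, t ∈ Submodule.span K (F : Set _) := by
    intro N
    have hfin : Module.Finite K (Derivation ℂ K K) := ⟨⟨Finset.univ.image e0, by
      rw [Finset.coe_image, Finset.coe_univ, Set.image_univ]
      exact he0s⟩⟩
    obtain ⟨F, hF1, hF2⟩ := (Submodule.fg_span_iff_fg_span_finset_subset (R := K)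
      (vals n X δ κ e0 N)).1 (IsNoetherian.noetherian _)
    refine ⟨F, fun s hs => hF1 hs, fun s hs => ?_⟩
    rw [← hF2]
    exact Submodule.subset_span hs
  choose F hF1 hF2 using h1
  have h2 : ∀ i : (Σ N : Fin (N0 + 1), {x // x ∈ F N}), ∃ (a : ℤ)
      (s : (Fin n → Derivation ℂ K K) →
        MultilinearMap K (fun _ : Fin i.1 => Derivation ℂ K K) K), 0 < ((i.1 : ℕ) : ℤ) + n * a ∧
      IsMovable n X δ κ a s ∧ i.2.1 = s e0 := fun i => hF1 _ _ i.2.2
  choose a s ha hs hse using h2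
  have hle : ∀ i : (Σ N : Fin (N0 + 1), {x // x ∈ F N}), (i.1 : ℕ) ≤ N0 := fun i => by
    have := i.1.2
    omega
  let T : ∀ i : (Σ N : Fin (N0 + 1), {x // x ∈ F N}), (Fin (i.1 : ℕ) → Fin n) → K :=
    lcrd (N := fun i : (Σ N : Fin (N0 + 1), {x // x ∈ F N}) => (i.1 : ℕ)) A (-m) s g
  have hgA : ∀ j, g j ∈ Submodule.span K (g '' {l | A j ≤ A l}) := fun j =>
    Submodule.subset_span ⟨j, le_refl (A j), rfl⟩
  -- the perturbation inequality
  have PI : ∀ C : Matrix (Fin n) (Fin n) K, C.det ≠ 0 → (∀ i j, C i j ≠ 0 → A i = A j) →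
      ∀ v : Fin n → ℝ, ∑ j, v j = 0 → ∀ M' : ℝ,
        (∀ i J, act C (T i) J ≠ 0 → ∑ l, v (J l) ≤ M') →
          0 ≤ m * ∑ j, A j * v j + M' * k := by
    intro C hC hCA v hv M' hM'
    have hD : LinearIndependent K (lt C g) := lt_li.2 ⟨hg.1, hC⟩
    have hDA : ∀ j, lt C g j ∈ Submodule.span K (g '' {l | A j ≤ A l}) := by
      intro j
      refine Submodule.sum_mem _ fun l _ => ?_
      by_cases h : C j l = 0
      · rw [h, zero_smul]
        exact Submodule.zero_mem _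
      · exact Submodule.smul_mem _ _ (Submodule.subset_span ⟨l, (hCA j l h).le, rfl⟩)
    have h1 := pert h𝒮D (hDestD _ hD hDA) hmin v hv M' (by
      rintro d t ⟨hdN, ht⟩ J hne hJ
      -- a member of the finite family
      have h2 : ∃ u ∈ F d, u (fun k => lt C g (J k)) ≠ 0 := by
        by_contra hcon
        push Not at hcon
        apply hne
        have h3 := hF2 d t ht
        clear hne ht
        induction h3 using Submodule.span_induction with
        | mem u hu => exact hcon u hu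
        | zero => rfl
        | add u u' _ _ hu hu' => rw [add_apply, hu, hu', add_zero]
        | smul c u _ hu => rw [smul_apply, hu, smul_zero]
      obtain ⟨u, huF, hu⟩ := h2
      have hdlt : d < N0 + 1 := by omega
      have h3 := hse ⟨⟨d, hdlt⟩, ⟨u, huF⟩⟩
      have h4 : u = s ⟨⟨d, hdlt⟩, ⟨u, huF⟩⟩ e0 := h3
      refine hM' ⟨⟨d, hdlt⟩, ⟨u, huF⟩⟩ J ?_
      obtain ⟨c, hc, hce⟩ := hval (hs ⟨⟨d, hdlt⟩, ⟨u, huF⟩⟩) g hg.1
      have h5 := lead_act (A := A) (w := -m) (T := crd (N := fun i : (Σ N : Fin (N0 + 1),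
        {x // x ∈ F N}) => (i.1 : ℕ)) (fun x => s x g) g ⟨⟨d, hdlt⟩, ⟨u, huF⟩⟩) (fun I hI =>
          hsupp0 (hle _) (ha _) (hs _) g hg.1 hgA I hI) (g := C) (fun i j h => (hCA i j h).le)
      have h6 : dg A C = C := by
        ext i j
        rw [dg_apply]
        split_ifs with h
        · rfl
        · by_contra hne'
          exact h (hCA i j (Ne.symm hne'))
      rw [h6] at h5
      have h7 : act C (T ⟨⟨d, hdlt⟩, ⟨u, huF⟩⟩) J = lead A (-m) (act C (crd (N := fun i :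
        (Σ N : Fin (N0 + 1), {x // x ∈ F N}) => (i.1 : ℕ)) (fun x => s x g) g
          ⟨⟨d, hdlt⟩, ⟨u, huF⟩⟩)) J := (congrFun h5 J).symm
      have hJ' : ∑ k, A (J k) = -m := by
        have h8 : ((∑ k, A (J k) : ℤ) : ℝ) = ((-m : ℤ) : ℝ) := by
          rw [hsumA, hJ]
          push_cast
          ring
        exact_mod_cast h8
      rw [h7, lead]
      have h9 : (if ∑ k, A (J k) = -(m : ℤ) then act C (crd (N := fun i :
        (Σ N : Fin (N0 + 1), {x // x ∈ F N}) => (i.1 : ℕ)) (fun x => s x g) g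
          ⟨⟨d, hdlt⟩, ⟨u, huF⟩⟩) J else 0) = act C (crd (N := fun i :
        (Σ N : Fin (N0 + 1), {x // x ∈ F N}) => (i.1 : ℕ)) (fun x => s x g) g
          ⟨⟨d, hdlt⟩, ⟨u, huF⟩⟩) J := if_pos hJ'
      rw [h9]
      have h10 := congrFun (crd_act (N := fun i :
        (Σ N : Fin (N0 + 1), {x // x ∈ F N}) => (i.1 : ℕ)) (fun x => s x g) g C
          ⟨⟨d, hdlt⟩, ⟨u, huF⟩⟩) J
      rw [← h10]
      change s ⟨⟨d, hdlt⟩, ⟨u, huF⟩⟩ g (fun k => lt C g (J k)) ≠ 0
      rw [hce, smul_apply, ← h4]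
      exact smul_ne_zero hc hu)
    have h2 : m * ∑ j, (A j : ℝ) * v j + M' * k = m ^ 2 * (∑ j, w j * v j + M' * ∑ j, w j ^ 2) := by
      have h3 : (k : ℝ) = ∑ j, (A j : ℝ) ^ 2 := by exact_mod_cast hkk
      have h4 : ∑ j, (A j : ℝ) * v j = m * ∑ j, w j * v j := by
        rw [Finset.mul_sum]
        refine Finset.sum_congr rfl fun j _ => ?_
        rw [hA]
        ring
      have h5 : ∑ j, (A j : ℝ) ^ 2 = m ^ 2 * ∑ j, w j ^ 2 := by
        rw [Finset.mul_sum]
        refine Finset.sum_congr rfl fun j _ => ?_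
        rw [hA]
        ring
      rw [h3, h4, h5]
      ring
    rw [h2]
    exact mul_nonneg (sq_nonneg _) h1
  have hTw : ∀ i (J : Fin (i.1 : ℕ) → Fin n), T i J ≠ 0 → ∑ l, A (J l) = -m := by
    intro i J hne
    by_contra h
    exact hne (if_neg h)
  have hnot := not_noInv (N := fun i : (Σ N : Fin (N0 + 1), {x // x ∈ F N}) => (i.1 : ℕ))
    hn0 T A m hA0 q κ0 hq k hkk hk0 hTw PI
  rw [NoInv] at hnot
  push Not at hnot
  obtain ⟨Q, hQf, hQd, hQn, ν, p, hp, hne⟩ := hnot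
  obtain ⟨I0, -, hI0⟩ := Finset.exists_ne_zero_of_sum_ne_zero hne
  have hpI0 : p I0 ≠ 0 := fun h => hI0 (by rw [h, map_zero, zero_mul])
  obtain ⟨m', hcard, hm'⟩ := hp.exists_m hn0 hpI0
  obtain ⟨q0⟩ : Nonempty Q := hQn
  have hQ0 : 0 < Fintype.card Q := Fintype.card_pos_iff.2 ⟨q0⟩
  obtain ⟨e, he⟩ : ∃ e : Fin n → ℤ, ∀ j, e j = m' + k * ∑ x, a (ν x) - Fintype.card Q * q j :=
    ⟨_, fun _ => rfl⟩
  have hQ0' : (0 : ℤ) < Fintype.card Q := by exact_mod_cast hQ0
  have hm0' : (0 : ℤ) < m := by exact_mod_cast hm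
  have heA : ∀ i j, e j ≤ e i ↔ A i ≤ A j := by
    intro i j
    rw [he, he, hq, hq]
    constructor
    · intro h
      have h1 : (Fintype.card Q : ℤ) * (κ0 + m * A i) ≤ Fintype.card Q * (κ0 + m * A j) := by
        linarith
      have h2 := le_of_mul_le_mul_left h1 hQ0'
      have h3 : (m : ℤ) * A i ≤ m * A j := by linarith
      exact le_of_mul_le_mul_left h3 hm0'
    · intro h
      have h3 := mul_le_mul_of_nonneg_left h hm0'.le
      have h2 : κ0 + m * A i ≤ κ0 + m * A j := by linarith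
      have h1 := mul_le_mul_of_nonneg_left h2 hQ0'.le
      linarith
  let ω : (Fin n → Derivation ℂ K K) → K := LF (M := fun x => ((ν x).1 : ℕ)) A (-m) q k
    (fun x => s (ν x)) p
  obtain ⟨h0, f, hf, hfs⟩ := hs (ν q0)
  have hgen : ∀ c : K, IsTensor n X δ (a (ν q0)) (fun B => c • s (ν q0) B) →
      IsFlagSection X δ g e (fun D => c ^ k * ω D) := by
    intro c hc
    have h1 := flagSection (M := fun x => ((ν x).1 : ℕ)) hδ (g := g) hm hq (k := k)
      (s := fun x B => (if x = q0 then c else 1) • s (ν x) B) (a := fun x => a (ν x)) (fun x => by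
        by_cases hx : x = q0
        · subst hx
          simp only [if_true]
          exact hc
        · simp only [if_neg hx, one_smul]
          exact (hs _).1) (fun D hD hDA x J hne' => by
        refine hsupp0 (hle _) (ha _) (hs (ν x)) D hD hDA J fun h => hne' ?_
        rw [smul_apply, h, smul_zero]) hp hm' hQ0 he
    have h2 : LF (M := fun x => ((ν x).1 : ℕ)) A (-m) q k
        (fun x B => (if x = q0 then c else 1) • s (ν x) B) p = fun D => c ^ k * ω D := by
      funext D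
      have h3 := LF_smul (M := fun x => ((ν x).1 : ℕ)) A (-m) q k (fun x => s (ν x)) p
        (fun x => if x = q0 then c else 1) D
      rw [Finset.prod_ite_eq' Finset.univ q0 (fun _ => c), if_pos (Finset.mem_univ _)] at h3
      exact h3
    rw [h2] at h1
    exact h1
  refine ⟨g, e, hg.1, ?_, ?_, ω, ⟨g, ⟨hg.1, fun j => Submodule.subset_span
    ⟨j, le_refl (e j), rfl⟩⟩, hne⟩, ?_, fun j => f j ^ k, algInd_pow hf hk0, fun j => hgen _ (hfs j)⟩
  · -- the sum
    have h3 : ∀ x, Fintype.card (IR (fun i : (Σ N : Fin (N0 + 1), {x // x ∈ F N}) => (i.1 : ℕ)) q k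
        (ν x)) = k * (ν x).1 + ∑ j, q j := by
      intro x
      rw [Fintype.card_sum, Fintype.card_sigma, Fintype.card_sigma]
      simp only [Fintype.card_fin, Finset.sum_const, Finset.card_univ, smul_eq_mul]
    rw [Fintype.card_sigma] at hcard
    simp only [Fintype.card_fin] at hcard
    rw [Finset.sum_congr rfl fun x _ => h3 x, Finset.sum_add_distrib, Finset.sum_const,
      Finset.card_univ, smul_eq_mul, ← Finset.mul_sum] at hcard
    have h4 : ((k : ℤ) * ∑ x, ((ν x).1 : ℕ) + Fintype.card Q * ∑ j, (q j : ℤ)) = n * m' := by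
      exact_mod_cast hcard
    have h5 : ∑ j, e j = k * ∑ x, ((((ν x).1 : ℕ) : ℤ) + n * a (ν x)) := by
      simp only [he]
      rw [Finset.sum_sub_distrib, Finset.sum_const, Finset.card_univ, Fintype.card_fin,
        nsmul_eq_mul, ← Finset.mul_sum, Finset.sum_add_distrib, mul_add, ← Finset.mul_sum]
      push_cast at h4 ⊢
      linarith
    rw [h5]
    refine mul_pos (by exact_mod_cast hk0) (Finset.sum_pos (fun x _ => ha _) ⟨q0,
      Finset.mem_univ _⟩)
  · -- invariance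
    rintro φ ⟨⟨τ, hτ⟩, hX⟩ j D hD D' hD'
    have h2 : D' = cj hτ D := by
      ext y
      rw [cj_apply, ← hD', RingEquiv.apply_symm_apply]
    have h3 : member g e (e j) = flag g w (w j) := by
      rw [member, flag]
      congr 2
      ext l
      exact (heA j l).trans (hAw j l)
    rw [h3] at hD ⊢
    rw [h2]
    refine flag_stable hn0 hg hmin φ (cjE hτ) (fun c x => cj_smul hτ c x) ?_ (w j) hD
    rintro d t ⟨hdm, a', s', hpos, hs', rfl⟩
    refine ⟨pullS hτ s' e0, ⟨hdm, a', pullS hτ s', hpos, isMovable_pullS hτ hX hδ hs', rfl⟩,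
      fun x hne => ?_⟩
    obtain ⟨C, hC⟩ := exists_lt (D := fun i => cj hτ (e0 i)) he0s
    have h3 := cj_li hτ he0
    rw [hC] at h3
    have h4 := (lt_li.1 h3).2
    rw [pullS, pullT_apply]
    have h5 : s' (fun i => cj hτ (e0 i)) = C.det ^ a' • s' e0 := by
      rw [hC]
      exact hs'.1.1 C e0 he0 h4
    rw [h5, smul_apply, smul_eq_mul]
    exact (map_ne_zero φ.symm).2 (mul_ne_zero (zpow_ne_zero _ h4) hne)
  · have h1 := hgen 1 (by simpa only [one_smul] using h0)
    simpa only [one_pow, one_mul] using h1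

/-- **Invariant distributions without sections.** -/
theorem dist_main {K : Type} [Field K] [Algebra ℂ K] [Algebra.EssFiniteType ℂ K] {n : ℕ}
    (hn : Algebra.trdeg ℂ K = n) (hn0 : 0 < n) (X : Set (Place ℂ K)) (δ : Place ℂ K → ℝ)
    (hδ : ∀ P ∈ X, 0 ≤ δ P) (κ : ℕ) (hκ : ¬ KodairaGe n X δ κ) {N : ℕ} {a : ℤ}
    (hN : 0 < (N : ℤ) + n * a) {s : (Fin n → Derivation ℂ K K) →
      MultilinearMap K (fun _ : Fin N => Derivation ℂ K K) K} (hs : IsMovable n X δ κ a s)
    (hs0 : ∃ B, LinearIndependent K B ∧ s B ≠ 0) :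
    ∃ (b : Fin n → Derivation ℂ K K) (e : Fin n → ℤ), LinearIndependent K b ∧ 0 < ∑ j, e j ∧
      (∀ φ : K ≃+* K, Preserves X δ φ → ∀ j, ∀ D ∈ member b e (e j), ∀ D' : Derivation ℂ K K,
        (∀ f, D' (φ f) = φ (D f)) → D' ∈ member b e (e j)) ∧ FlagIitakaGe X δ b e κ ∧
      ∃ j, member b e (e j) ≠ ⊤ ∧ ¬ DistKodairaNonneg n X δ (member b e (e j)) := by
  obtain ⟨b, e, hb, he, hinv, ω, hω0, hω, f, hf, hfs⟩ := levi_main hn hn0 X δ hδ κ hκ hN hs hs0
  refine ⟨b, e, hb, he, hinv, ⟨ω, hω0, hω, f, hf, hfs⟩, ?_⟩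
  by_contra hcon
  push Not at hcon
  exact hκ (kodaira_of_members hn hn0 hb he hω hω0 hf hfs hcon)

end Pool.Agent.Helper91.HM.Tw
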