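import Pool.Agent.Helper91.LV.Form

/-!
The poles of the forms which are given by invariants of the leading parts.
-/

set_option autoImplicit false
set_option linter.unusedSectionVars false

namespace Pool.Agent.Helper91.HM.Tw

open Module FF Pool.Agent.W602.GT Pool.Agent.W603.LV Pool.Agent.TH143.GT Pool.Agent.Y220.OG
  Pool.Agent.Helper12.BL Pool.Agent.Helper91.HM

theorem det_updateCol_one {R m : Type} [CommRing R] [Fintype m] [DecidableEq m] (j : m)
    (f : m → R) : ((1 : Matrix m m R).updateCol j f).det = f j := by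
  rw [← Matrix.cramer_apply, Matrix.cramer_one]
  rfl

variable {K : Type} [Field K] [Algebra ℂ K] {n : ℕ}

theorem Gr.nat {k K : Type} [Field k] [Field K] [Algebra k K] {P : Place k K} (m : ℤ) :
    Gr P 0 (m : K) := by
  have := Gr.const (P := P) (m : k)
  rwa [map_intCast] at this

theorem D0_gr {P : Place ℂ K} (A : Fin n → ℤ) (q : Fin n → ℕ) (I : P0 q → Fin n) :
    Gr P 0 (D0 K A q I) := by
  classical
  rw [D0, Matrix.det_apply']
  refine Gr.sum _ _ fun σ _ => ?_
  have h4 : Gr P 0 (((Equiv.Perm.sign σ : ℤˣ) : ℤ) : K) := Gr.nat _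
  have h6 := h4.mul (Gr.prod (P := P) Finset.univ (fun i => (Matrix.of fun x y : P0 q =>
    if ((x.2 : ℕ) = y.2 ∧ A x.1 = A y.1) ∧ I x = y.1 then (1 : K) else 0) (σ i) i)
      (fun _ => (0 : ℝ)) fun i _ => by
        rw [Matrix.of_apply]
        split_ifs
        · exact Gr.one
        · exact Gr.zero)
  simpa using h6

/-- vector fields can be changed, by a block triangular substitution all whose blocks have
determinant one, such that they are logarithmic, with one exception -/
theorem reg_change' {A : Fin n → ℤ} {P : Place ℂ K} {D : Fin n → Derivation ℂ K K}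
    (hD : ∀ i, DerReg P (D i)) {i0 : Fin n} (hi0 : ¬ DerLog P (D i0))
    (hlog : ∀ i, A i0 < A i → DerLog P (D i)) :
    ∃ C : Matrix (Fin n) (Fin n) K, C.det = 1 ∧ (∀ i j, C i j ≠ 0 → A i ≤ A j) ∧
      (∀ t, (C.toSquareBlock A t).det = 1) ∧ (∀ i, DerReg P (lt C D i)) ∧
      ∀ i, i ≠ i0 → DerLog P (lt C D i) := by
  classical
  obtain ⟨t, ht0, ht⟩ := P.surj
  have htr : P.Reg t := Or.inr (by rw [ht]; norm_num)
  have hi1 : ¬ Ge P 1 (D i0 t) := fun h => hi0 (log_of_reg (hD i0) ht0 ht h)
  have hne : D i0 t ≠ 0 := fun h => hi1 (Or.inl h)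
  have ho : P.ord (D i0 t) = 0 := by
    have h1 := (hD i0 t htr).resolve_left hne
    have h2 : ¬ 1 ≤ P.ord (D i0 t) := fun h => hi1 (Or.inr h)
    omega
  obtain ⟨c, hc⟩ : ∃ c : Fin n → K, ∀ i, c i = if A i ≤ A i0 then D i t / D i0 t else 0 :=
    ⟨_, fun _ => rfl⟩
  have hcr : ∀ i, P.Reg (c i) := by
    intro i
    rw [hc]
    split_ifs
    · rw [reg_iff_ge]
      have := ge_div hne (hD i t htr)
      rwa [ho, sub_zero] at this
    · exact P.reg_zero
  obtain ⟨M, hM⟩ : ∃ M : Matrix (Fin n) (Fin n) K,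
    M = (1 : Matrix (Fin n) (Fin n) K).updateCol i0 fun i => if i = i0 then 1 else - c i :=
      ⟨_, rfl⟩
  have hsum : ∀ i, lt M D i = if i = i0 then D i0 else D i - c i • D i0 := by
    intro i
    rw [lt, ← Finset.add_sum_erase _ _ (Finset.mem_univ i0), hM, Matrix.updateCol_self]
    have h1 : ∀ j ∈ Finset.univ.erase i0, (1 : Matrix (Fin n) (Fin n) K).updateCol i0
        (fun i => if i = i0 then 1 else - c i) i j • D j =
          if i = j then D i else 0 := by
      intro j hj
      rw [Matrix.updateCol_ne (Finset.ne_of_mem_erase hj), Matrix.one_apply]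
      split_ifs with h
      · rw [one_smul, h]
      · rw [zero_smul]
    rw [Finset.sum_congr rfl h1, Finset.sum_ite_eq]
    by_cases hi : i = i0
    · rw [if_pos hi, if_pos hi, if_neg (by rw [hi]; exact Finset.notMem_erase _ _), one_smul,
        add_zero]
    · rw [if_neg hi, if_neg hi, if_pos (Finset.mem_erase.mpr ⟨hi, Finset.mem_univ _⟩), neg_smul]
      abel
  refine ⟨M, ?_, fun i j hij => ?_, fun u => ?_, fun i => ?_, fun i hi => ?_⟩
  · rw [hM, det_updateCol_one]
    exact if_pos rfl
  · rw [hM, Matrix.updateCol_apply] at hij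
    by_cases hj : j = i0
    · rw [if_pos hj] at hij
      by_cases hi : i = i0
      · rw [hi, hj]
      · rw [if_neg hi, hc] at hij
        rw [hj]
        by_contra hlt
        rw [if_neg hlt, neg_zero] at hij
        exact hij rfl
    · rw [if_neg hj, Matrix.one_apply] at hij
      by_cases h : i = j
      · rw [h]
      · rw [if_neg h] at hij
        exact absurd rfl hij
  · by_cases hu : A i0 = u
    · have h1 : M.toSquareBlock A u = (1 : Matrix {a // A a = u} {a // A a = u} K).updateCol
          ⟨i0, hu⟩ fun i => if i.1 = i0 then 1 else - c i.1 := by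
        ext i j
        rw [Matrix.toSquareBlock_def, Matrix.of_apply, hM, Matrix.updateCol_apply,
          Matrix.updateCol_apply, Matrix.one_apply, Matrix.one_apply]
        by_cases hj : j.1 = i0
        · rw [if_pos hj, if_pos (Subtype.ext hj)]
        · rw [if_neg hj, if_neg fun h => hj (congrArg Subtype.val h)]
          exact if_congr (Subtype.ext_iff).symm rfl rfl
      rw [h1, det_updateCol_one]
      exact if_pos rfl
    · have h1 : M.toSquareBlock A u = 1 := by
        ext i j
        have hj : j.1 ≠ i0 := fun h => hu (by rw [← h]; exact j.2)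
        rw [Matrix.toSquareBlock_def, Matrix.of_apply, hM, Matrix.updateCol_ne hj,
          Matrix.one_apply, Matrix.one_apply]
        exact if_congr (Subtype.ext_iff).symm rfl rfl
      rw [h1, Matrix.det_one]
  · rw [hsum]
    split_ifs with hi
    · exact hD i0
    · exact derReg_sub (hD i) (derReg_smul (hD i0) (hcr i))
  · rw [hsum, if_neg hi]
    by_cases hA : A i ≤ A i0
    · refine log_of_reg (derReg_sub (hD i) (derReg_smul (hD i0) (hcr i))) ht0 ht (Or.inl ?_)
      rw [Derivation.sub_apply, Derivation.smul_apply, smul_eq_mul, hc, if_pos hA,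
        div_mul_cancel₀ _ hne, sub_self]
    · rw [hc, if_neg hA, zero_smul, sub_zero]
      exact hlog i (not_le.1 hA)

variable [Algebra ℝ K] [IsScalarTower ℝ ℂ K] {Q : Type} [Fintype Q] [DecidableEq Q] {M : Q → ℕ}

theorem LF_reg {X : Set (Place ℂ K)} {δ : Place ℂ K → ℝ} (hδ : ∀ P ∈ X, 0 ≤ δ P)
    {A : Fin n → ℤ} {w : ℤ} {q : Fin n → ℕ} {Qf : ℤ → ℕ} (hQ : ∀ j, q j = Qf (A j)) {k : ℕ}
    {s : ∀ x : Q, (Fin n → Derivation ℂ K K) →
      MultilinearMap K (fun _ : Fin (M x) => Derivation ℂ K K) K} {a : Q → ℤ}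
    (hs : ∀ x, IsTensor n X δ (a x) (s x))
    {p : ((Σ x, Fin (Fintype.card (IR M q k x))) → Fin n) → ℝ} (hp : SLInv p) {m : ℕ}
    (hm : ∀ I', p I' ≠ 0 → ∀ i, (Finset.univ.filter fun k => I' k = i).card = m)
    {D : Fin n → Derivation ℂ K K} (hD : LinearIndependent K D)
    (hsupp : ∀ x (J : Fin (M x) → Fin n), s x D (fun k => D (J k)) ≠ 0 → ∑ k, A (J k) ≤ w)
    {P : Place ℂ K} (hP : P ∈ X) (hdiv : Divisorial n P) (hframe : IsFrame P D) {i0 : Fin n}
    (hi0 : ¬ DerLog P (D i0)) (hlog : ∀ i, A i0 < A i → DerLog P (D i)) :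
    Gr P (-(((m : ℝ) - Fintype.card Q * q i0 + k * ∑ x, a x) * δ P)) (LF A w q k s p D) := by
  classical
  have hq : ∀ i j, A i = A j → q i = q j := fun i j hij => by rw [hQ, hQ, hij]
  obtain ⟨C, hC1, hCA, hCb, hreg, hlog'⟩ := reg_change' hframe.1 hi0 hlog
  have hchi : chi A q C = 1 := by
    rw [chi_eq hQ]
    exact Finset.prod_eq_one fun t _ => by rw [hCb, one_pow]
  have h1 := LF_lt hq (a := a) (fun x => (hs x).1) hp hm hD hsupp (C := C)
    (by rw [hC1]; exact one_ne_zero) hCA (by rw [hchi]; exact one_ne_zero)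
  rw [hC1, hchi, one_zpow, one_pow, inv_one, mul_one, one_mul] at h1
  rw [← h1, LF]
  have h2 : ∀ x, s x (lt C D) = s x D := fun x => by
    have h3 := (hs x).1 C D hD (by rw [hC1]; exact one_ne_zero)
    rw [hC1, one_zpow, one_smul] at h3
    exact h3
  refine Gr.sum _ _ fun I _ => ?_
  by_cases hI : p I = 0
  · rw [hI, map_zero, zero_mul]
    exact Gr.zero
  have h3 : Gr P 0 (algebraMap ℝ K (p I)) := by
    rw [IsScalarTower.algebraMap_apply ℝ ℂ K]
    exact Gr.const _
  -- the coordinates
  have h4 : ∀ x (J : Fin (M x) → Fin n), Gr P (-((((Finset.univ.filter fun l => J l = i0).card : ℝ) +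
      a x) * δ P)) (lcrd A w s (lt C D) x J) := by
    intro x J
    rw [lcrd, lead]
    split_ifs
    swap
    · exact Gr.zero
    have h4 := (hs x).2 P hP hdiv D hframe (fun l => lt C D (J l)) (fun l => hreg _)
    have h5 : crd (fun x => s x (lt C D)) (lt C D) x J = s x D (fun l => lt C D (J l)) := by
      change s x (lt C D) (fun l => lt C D (J l)) = _
      rw [h2]
    rw [h5]
    refine Gr.mono ?_ h4
    rw [neg_le_neg_iff]
    refine mul_le_mul_of_nonneg_right ?_ (hδ P hP)
    rw [Nat.card_eq_fintype_card, Fintype.card_subtype]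
    have h5 : (Finset.univ.filter fun l : Fin (M x) => ¬ DerLog P (lt C D (J l))) ⊆
        Finset.univ.filter fun l : Fin (M x) => J l = i0 := by
      intro l hl
      rw [Finset.mem_filter] at hl ⊢
      refine ⟨hl.1, ?_⟩
      by_contra hne
      exact hl.2 (hlog' _ hne)
    have h6 := Finset.card_le_card h5
    have h7 : ((Finset.univ.filter fun l : Fin (M x) => ¬ DerLog P (lt C D (J l))).card : ℝ) ≤
        ((Finset.univ.filter fun l : Fin (M x) => J l = i0).card : ℝ) := by
      exact_mod_cast h6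
    linarith
  have h5 : ∀ x, Gr P (-((((Finset.univ.filter fun l => I ⟨x, l⟩ = i0).card : ℝ) - q i0 +
      k * a x) * δ P)) (RR A q k (lcrd A w s (lt C D)) x (fun l => I ⟨x, l⟩)) := by
    intro x
    rw [RR]
    by_cases hD0 : D0 K A q (fun z => I ⟨x, Fintype.equivFin (IR M q k x) (Sum.inr z)⟩) = 0
    · rw [hD0, mul_zero]
      exact Gr.zero
    have h6 := (Gr.prod (P := P) Finset.univ _ _ fun (y : Fin k) _ => h4 x
      (fun l => I ⟨x, Fintype.equivFin (IR M q k x) (Sum.inl ⟨y, l⟩)⟩)).mul
        (D0_gr A q (fun z => I ⟨x, Fintype.equivFin (IR M q k x) (Sum.inr z)⟩))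
    refine Gr.mono (le_of_eq ?_) h6
    have h7 := D0_count hD0 i0
    have h8 : (((Finset.univ.filter fun l => I ⟨x, l⟩ = i0).card : ℕ) : ℝ) =
        ∑ y : Fin k, (((Finset.univ.filter fun l : Fin (M x) =>
          I ⟨x, Fintype.equivFin (IR M q k x) (Sum.inl ⟨y, l⟩)⟩ = i0).card : ℕ) : ℝ) + q i0 := by
      rw [← h7, ← Nat.cast_sum, ← Nat.cast_add]
      congr 1
      rw [Finset.card_filter, sum_IR q k x]
      congr 1
      · exact Finset.sum_congr rfl fun y _ => by rw [Finset.card_filter]
      · rw [Finset.card_filter]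
    rw [h8, add_zero, Finset.sum_neg_distrib, ← Finset.sum_mul, Finset.sum_add_distrib,
      Finset.sum_const, Finset.card_univ, Fintype.card_fin, nsmul_eq_mul]
    ring
  have h6 := h3.mul (Gr.prod (P := P) Finset.univ _ _ fun x _ => h5 x)
  refine Gr.mono (le_of_eq ?_) h6
  rw [zero_add, Finset.sum_neg_distrib, ← Finset.sum_mul, Finset.sum_add_distrib,
    Finset.sum_sub_distrib, Finset.sum_const, Finset.card_univ, nsmul_eq_mul, ← Finset.mul_sum]
  have h7 := hm I hI i0
  have h8 : ∑ x, ((Finset.univ.filter fun l => I ⟨x, l⟩ = i0).card : ℝ) = m := by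
    rw [← h7, ← Nat.cast_sum]
    congr 1
    rw [Finset.card_filter, Fintype.sum_sigma]
    exact Finset.sum_congr rfl fun x _ => by rw [Finset.card_filter]
  rw [h8]
  push_cast
  ring

end Pool.Agent.Helper91.HM.Tw
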